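import Pool.Agent.Work.MP_c71557_gt.C.DefsK
import Pool.Agent.Work.MP_c71557_gt.G.Rt

set_option autoImplicit false
set_option linter.unusedVariables false

/-!
# MP_c71557_gt, module C/Cls: open convex cones are sectors (M)

`P2 = ℝ × ℝ`, `dir θ = (cos θ, sin θ)`.
* `sct_CU`: for `a < b ≤ a + π` the sector is `{x | 0 < det (dir a, x) ∧ 0 < det (x, dir b)}` if
  `b < a + π`, and `{x | 0 < det (dir a, x)}` if `b = a + π`
  (`det (dir a, t • dir θ) = t sin (θ - a)`, `det (t • dir θ, dir b) = t sin (b - θ)`; every `x ≠ 0` is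
  `t • dir θ` with `a ≤ θ < a + 2π`, `exists_dir`).  So it is open and convex; nonempty:
  `dir ((a + b) / 2)`; homogeneous: clear.
* `CU_cases`: if `0 ∈ U`, then `U` contains a ball around `0`, hence everything by homogeneity.
  If `0 ∉ U`: by `geometric_hahn_banach_open_point` there is a linear functional `f` with `f < f 0 = 0`
  on `U`, i.e. `α` with `det (dir α, x) > 0` for `x ∈ U` (a nonzero functional is
  `x ↦ - c det (dir α, x)`, `c > 0`, for some `α`), so every `x ∈ U` is `t • dir θ`, `t > 0`,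
  `α < θ < α + π` (`exists_dir` from `α`).  `Θ = {θ ∈ (α, α + π) | dir θ ∈ U}` is open, nonempty,
  and order connected: for `θ₁ < θ < θ₂` with `θ₂ - θ₁ < π` the vector `dir θ` is a positive
  combination of `dir θ₁` and `dir θ₂` (`sin (θ₂ - θ₁) • dir θ = sin (θ₂ - θ) • dir θ₁ +
  sin (θ - θ₁) • dir θ₂`), and `U` is convex and homogeneous.  So `Θ = (a, b)` with
  `a = sInf Θ`, `b = sSup Θ`, `α ≤ a < b ≤ α + π`, and `U = sct a b`.
-/

noncomputable section

namespace C715

open Ang CategoryTheory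
open scoped Topology

private def cdt (u v : P2) : ℝ := u.1 * v.2 - u.2 * v.1

private theorem cdt_left (a t θ : ℝ) : cdt (dir a) (t • dir θ) = t * Real.sin (θ - a) := by
  unfold cdt dir
  simp only [Prod.smul_fst, Prod.smul_snd, smul_eq_mul]
  rw [Real.sin_sub]
  ring

private theorem cdt_right (b t θ : ℝ) : cdt (t • dir θ) (dir b) = t * Real.sin (b - θ) := by
  unfold cdt dir
  simp only [Prod.smul_fst, Prod.smul_snd, smul_eq_mul]
  rw [Real.sin_sub]
  ring

private theorem sct_eq {a b : ℝ} (hab : a < b) (hb : b ≤ a + Real.pi) :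
    sct a b = {x | 0 < cdt (dir a) x} ∩ {x | 0 < cdt x (dir b)} := by
  ext x
  constructor
  · rintro ⟨t, θ, ht, h1, h2, rfl⟩
    refine ⟨?_, ?_⟩
    · change 0 < cdt (dir a) (t • dir θ)
      rw [cdt_left]
      exact mul_pos ht (Real.sin_pos_of_pos_of_lt_pi (by linarith) (by linarith))
    · change 0 < cdt (t • dir θ) (dir b)
      rw [cdt_right]
      exact mul_pos ht (Real.sin_pos_of_pos_of_lt_pi (by linarith) (by linarith))
  · rintro ⟨h1, h2⟩
    have h1 : 0 < cdt (dir a) x := h1
    have h2 : 0 < cdt x (dir b) := h2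
    have hx : x ≠ 0 := by
      rintro rfl
      unfold cdt at h1
      simp at h1
    obtain ⟨t, θ, ht, h3, h4, rfl⟩ := exists_dir x hx a
    rw [cdt_left] at h1
    rw [cdt_right] at h2
    have s1 : 0 < Real.sin (θ - a) := pos_of_mul_pos_right h1 ht.le
    have s2 : 0 < Real.sin (b - θ) := pos_of_mul_pos_right h2 ht.le
    have h5 : a < θ := by
      rcases h3.eq_or_lt with h | h
      · rw [← h, sub_self, Real.sin_zero] at s1
        exact absurd s1 (lt_irrefl 0)
      · exact h
    have h6 : θ < a + Real.pi := by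
      by_contra hcon
      rw [not_lt] at hcon
      have : Real.sin (θ - a) ≤ 0 := by
        have e : θ - a = -(2 * Real.pi - (θ - a)) + 2 * Real.pi := by ring
        rw [e, Real.sin_add_two_pi, Real.sin_neg]
        have : 0 ≤ Real.sin (2 * Real.pi - (θ - a)) :=
          Real.sin_nonneg_of_nonneg_of_le_pi (by linarith) (by linarith)
        linarith
      linarith
    have h7 : θ < b := by
      by_contra hcon
      rw [not_lt] at hcon
      have : Real.sin (b - θ) ≤ 0 :=
        Real.sin_nonpos_of_nonpos_of_neg_pi_le (by linarith) (by linarith)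
      linarith
    exact ⟨t, θ, ht, h5, h7, rfl⟩

private theorem sct_smul {a b : ℝ} (s : ℝ) (x : P2) (hs : 0 < s) (hx : x ∈ sct a b) :
    s • x ∈ sct a b := by
  obtain ⟨t, θ, ht, h1, h2, rfl⟩ := hx
  exact ⟨s * t, θ, mul_pos hs ht, h1, h2, smul_smul _ _ _⟩

theorem sct_CU {a b : ℝ} (hab : a < b) (hb : b ≤ a + Real.pi) : sct a b ∈ CU := by
  refine ⟨?_, ?_, ?_, fun s x hs hx => sct_smul s x hs hx⟩
  · rw [sct_eq hab hb]
    refine IsOpen.inter ?_ ?_
    · refine isOpen_lt continuous_const ?_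
      unfold cdt
      fun_prop
    · refine isOpen_lt continuous_const ?_
      unfold cdt
      fun_prop
  · rw [sct_eq hab hb]
    refine Convex.inter ?_ ?_
    · refine convex_halfSpace_gt (f := fun x => cdt (dir a) x) ⟨?_, ?_⟩ 0
      · intro x y
        unfold cdt
        simp only [Prod.fst_add, Prod.snd_add]
        ring
      · intro c x
        unfold cdt
        simp only [Prod.smul_fst, Prod.smul_snd, smul_eq_mul]
        ring
    · refine convex_halfSpace_gt (f := fun x => cdt x (dir b)) ⟨?_, ?_⟩ 0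
      · intro x y
        unfold cdt
        simp only [Prod.fst_add, Prod.snd_add]
        ring
      · intro c x
        unfold cdt
        simp only [Prod.smul_fst, Prod.smul_snd, smul_eq_mul]
        ring
  · exact ⟨dir ((a + b) / 2), 1, (a + b) / 2, one_pos, by linarith, by linarith,
      (one_smul _ _).symm⟩

theorem CU_cases {U : Set P2} (hU : U ∈ CU) :
    U = Set.univ ∨ ∃ a b : ℝ, a < b ∧ b ≤ a + Real.pi ∧ U = sct a b := by
  obtain ⟨ho, hc, hn, hh⟩ := hU
  by_cases h0 : (0 : P2) ∈ U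
  · left
    obtain ⟨e, he, hball⟩ := Metric.isOpen_iff.1 ho 0 h0
    rw [Set.eq_univ_iff_forall]
    intro x
    set s : ℝ := e / (2 * (‖x‖ + 1)) with hs
    have hx0 : 0 < ‖x‖ + 1 := by positivity
    have hs0 : 0 < s := by positivity
    have h1 : s • x ∈ U := by
      apply hball
      rw [mem_ball_zero_iff, norm_smul, Real.norm_of_nonneg hs0.le, hs, div_mul_eq_mul_div,
        div_lt_iff₀ (by positivity)]
      nlinarith [norm_nonneg x]
    have h2 := hh s⁻¹ _ (inv_pos.2 hs0) h1
    rwa [smul_smul, inv_mul_cancel₀ hs0.ne', one_smul] at h2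
  · right
    obtain ⟨f, hf⟩ := geometric_hahn_banach_open_point hc ho h0
    rw [map_zero] at hf
    have hfx : ∀ x : P2, f x = f (1, 0) * x.1 + f (0, 1) * x.2 := by
      intro x
      have e : x = x.1 • ((1, 0) : P2) + x.2 • ((0, 1) : P2) := by
        ext <;> simp
      conv_lhs => rw [e]
      rw [map_add, map_smul, map_smul, smul_eq_mul, smul_eq_mul]
      ring
    have hv : ((-(f (0, 1)), f (1, 0)) : P2) ≠ 0 := by
      intro h
      obtain ⟨x, hx⟩ := hn
      have h1 : -(f (0, 1)) = 0 := congrArg Prod.fst h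
      have h2 : f (1, 0) = 0 := congrArg Prod.snd h
      have h3 := hf x hx
      rw [hfx, h2, neg_eq_zero.1 h1] at h3
      simp at h3
    obtain ⟨t, α, ht, -, -, hα⟩ := exists_dir _ hv 0
    have hα1 : -(f (0, 1)) = t * Real.cos α := congrArg Prod.fst hα
    have hα2 : f (1, 0) = t * Real.sin α := congrArg Prod.snd hα
    have hpos : ∀ x ∈ U, 0 < cdt (dir α) x := by
      intro x hx
      have h3 := hf x hx
      rw [hfx] at h3
      have h4 : 0 < t * cdt (dir α) x := by
        have e : t * cdt (dir α) x = -(f (1, 0) * x.1 + f (0, 1) * x.2) := by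
          unfold cdt dir
          dsimp only
          linear_combination (-x.2) * hα1 + x.1 * hα2
        rw [e]
        linarith
      exact pos_of_mul_pos_right h4 ht.le
    have hsub : ∀ x ∈ U, x ∈ sct α (α + Real.pi) := by
      intro x hx
      rw [sct_eq (by linarith [Real.pi_pos]) le_rfl]
      refine ⟨hpos x hx, ?_⟩
      have h3 := hpos x hx
      change 0 < cdt x (dir (α + Real.pi))
      rw [dir_pi]
      have e : cdt x (-dir α) = cdt (dir α) x := by
        unfold cdt
        simp only [Prod.fst_neg, Prod.snd_neg]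
        ring
      rw [e]
      exact h3
    let Θ : Set ℝ := {θ | θ ∈ Set.Ioo α (α + Real.pi) ∧ dir θ ∈ U}
    have hΘo : IsOpen Θ := isOpen_Ioo.inter (ho.preimage dir_cont)
    have hdirU : ∀ (t θ : ℝ), 0 < t → t • dir θ ∈ U → dir θ ∈ U := by
      intro t θ ht h
      have h1 := hh t⁻¹ _ (inv_pos.2 ht) h
      rwa [smul_smul, inv_mul_cancel₀ ht.ne', one_smul] at h1
    have hΘn : Θ.Nonempty := by
      obtain ⟨x, hx⟩ := hn
      obtain ⟨t, θ, ht, h1, h2, rfl⟩ := hsub x hx
      exact ⟨θ, ⟨h1, h2⟩, hdirU t θ ht hx⟩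
    have hΘb : BddBelow Θ := ⟨α, fun θ hθ => hθ.1.1.le⟩
    have hΘa : BddAbove Θ := ⟨α + Real.pi, fun θ hθ => hθ.1.2.le⟩
    have hconn : ∀ θ1 ∈ Θ, ∀ θ2 ∈ Θ, ∀ θ, θ1 < θ → θ < θ2 → θ ∈ Θ := by
      intro θ1 h1 θ2 h2 θ h3 h4
      refine ⟨⟨h1.1.1.trans h3, h4.trans h2.1.2⟩, ?_⟩
      have l1 := h1.1.1
      have l2 := h2.1.2
      have s0 : 0 < Real.sin (θ2 - θ1) :=
        Real.sin_pos_of_pos_of_lt_pi (by linarith) (by linarith)
      have s1 : 0 < Real.sin (θ2 - θ) :=
        Real.sin_pos_of_pos_of_lt_pi (by linarith) (by linarith)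
      have s2 : 0 < Real.sin (θ - θ1) :=
        Real.sin_pos_of_pos_of_lt_pi (by linarith) (by linarith)
      have key : Real.sin (θ2 - θ1) • dir θ =
          Real.sin (θ2 - θ) • dir θ1 + Real.sin (θ - θ1) • dir θ2 := by
        have q := Real.sin_sq_add_cos_sq θ
        unfold dir
        rw [Real.sin_sub, Real.sin_sub, Real.sin_sub]
        ext
        · simp only [Prod.fst_add, Prod.smul_fst, smul_eq_mul]
          ring
        · simp only [Prod.snd_add, Prod.smul_snd, smul_eq_mul]
          ring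
      have hsum : 0 < Real.sin (θ2 - θ) + Real.sin (θ - θ1) := by linarith
      have h5 : (Real.sin (θ2 - θ) / (Real.sin (θ2 - θ) + Real.sin (θ - θ1))) • dir θ1 +
          (Real.sin (θ - θ1) / (Real.sin (θ2 - θ) + Real.sin (θ - θ1))) • dir θ2 ∈ U := by
        refine hc h1.2 h2.2 (div_nonneg s1.le hsum.le) (div_nonneg s2.le hsum.le) ?_
        rw [← add_div, div_self hsum.ne']
      have h6 := hh ((Real.sin (θ2 - θ) + Real.sin (θ - θ1)) / Real.sin (θ2 - θ1)) _
        (div_pos hsum s0) h5
      have h7 : ((Real.sin (θ2 - θ) + Real.sin (θ - θ1)) / Real.sin (θ2 - θ1)) •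
          ((Real.sin (θ2 - θ) / (Real.sin (θ2 - θ) + Real.sin (θ - θ1))) • dir θ1 +
          (Real.sin (θ - θ1) / (Real.sin (θ2 - θ) + Real.sin (θ - θ1))) • dir θ2) = dir θ := by
        have h8 : (Real.sin (θ2 - θ1))⁻¹ • (Real.sin (θ2 - θ1) • dir θ) = dir θ := by
          rw [smul_smul, inv_mul_cancel₀ s0.ne', one_smul]
        rw [← h8, key, smul_add, smul_add, smul_smul, smul_smul, smul_smul, smul_smul]
        congr 2
        · field_simp
        · field_simp
      rw [h7] at h6
      exact h6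
    have hmem : ∀ θ, θ ∈ Θ ↔ sInf Θ < θ ∧ θ < sSup Θ := by
      intro θ
      constructor
      · intro hθ
        obtain ⟨e, he, hball⟩ := Metric.isOpen_iff.1 hΘo θ hθ
        have h1 : θ - e / 2 ∈ Θ := by
          apply hball
          rw [Metric.mem_ball, Real.dist_eq]
          have : θ - e / 2 - θ = -(e / 2) := by ring
          rw [this, abs_neg, abs_of_pos (half_pos he)]
          exact half_lt_self he
        have h2 : θ + e / 2 ∈ Θ := by
          apply hball
          rw [Metric.mem_ball, Real.dist_eq]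
          have : θ + e / 2 - θ = e / 2 := by ring
          rw [this, abs_of_pos (half_pos he)]
          exact half_lt_self he
        have h3 := csInf_le hΘb h1
        have h4 := le_csSup hΘa h2
        constructor
        · linarith
        · linarith
      · rintro ⟨h1, h2⟩
        obtain ⟨θ1, h3, h4⟩ := exists_lt_of_csInf_lt hΘn h1
        obtain ⟨θ2, h5, h6⟩ := exists_lt_of_lt_csSup hΘn h2
        exact hconn θ1 h3 θ2 h5 θ h4 h6
    obtain ⟨θ0, hθ0⟩ := hΘn
    have h1 := (hmem θ0).1 hθ0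
    have h2 : α ≤ sInf Θ := le_csInf ⟨θ0, hθ0⟩ fun θ hθ => hθ.1.1.le
    have h3 : sSup Θ ≤ α + Real.pi := csSup_le ⟨θ0, hθ0⟩ fun θ hθ => hθ.1.2.le
    refine ⟨sInf Θ, sSup Θ, h1.1.trans h1.2, by linarith, ?_⟩
    ext x
    constructor
    · intro hx
      obtain ⟨t, θ, ht, h4, h5, rfl⟩ := hsub x hx
      have h6 := (hmem θ).1 ⟨⟨h4, h5⟩, hdirU t θ ht hx⟩
      exact ⟨t, θ, ht, h6.1, h6.2, rfl⟩
    · rintro ⟨t, θ, ht, h4, h5, rfl⟩
      exact hh t _ ht ((hmem θ).2 ⟨h4, h5⟩).2

end C715
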