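import Pool.Agent.Work.MP_c71557_gt.C.HfN
import Pool.Agent.Work.MP_c71557_gt.C.Cls
import Pool.Agent.Work.MP_c71557_gt.A.ActFF

set_option autoImplicit false
set_option linter.unusedVariables false

/-!
# MP_c71557_gt, module C/OpW: open arcs and open cones (S-M)

`cf : Ft →* FGr`, the framed homogeneous element of a germ; `opW : Op ∪ {plane} → Wc`.

`hiso_opW`: `hiso_functor` (A/ActFF).  `cf F ∈ Cnf`, `(cf F).ph 0 = F` (`cf_mem`, `cf_ph`) and
`cf (a.ph 0) = a` for `a ∈ Cnf` (`Cnf_ext`).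
* full: `g'` admissible `f a → f b`: take `g = g'.ph 0`; `cf g = g'`, and `g` is admissible `a → b`: two
  arcs: `Cnf_maps`; `b = none`: nothing to prove; `a = none`, `b = some q`: impossible, `g' 0 = 0` is not
  in the sector (`Cnf_zero`, `zero_notMem_sct`).
* faithful: arcs: `Cnf_N`; `none`: `(cf n).ph 0 = 1` gives `n = 1`.
* essentially surjective: `CU_cases`, `g = 1` (equality of objects of `Wc`: `Subtype.ext`).
-/

noncomputable section

namespace C715

open Ang CategoryTheory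
open scoped Topology

/-- the framed homogeneous element with given germ at `0` -/
def cf0 (F : ↥Ft) : FGr := (Cnf_ex F).choose

theorem cf0_mem (F : ↥Ft) : cf0 F ∈ Cnf := (Cnf_ex F).choose_spec.1

theorem cf0_ph (F : ↥Ft) : (cf0 F).ph 0 = F := (Cnf_ex F).choose_spec.2

/-- the framed homogeneous element with given germ at `0` -/
def cf : ↥Ft →* FGr := MonoidHom.mk' cf0 (fun F G => Cnf_ext (cf0_mem _)
  (Cnf.mul_mem (cf0_mem F) (cf0_mem G)) (by
    rw [FGr.mul_ph, Cnf_zero (cf0_mem G), cf0_ph, cf0_ph, cf0_ph]))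

theorem cf_mem (F : ↥Ft) : cf F ∈ Cnf := cf0_mem F

theorem cf_ph (F : ↥Ft) : (cf F).ph 0 = F := cf0_ph F

theorem cf_eq {a : FGr} (ha : a ∈ Cnf) : cf (a.ph 0) = a := Cnf_ext (cf_mem _) ha (cf_ph _)

/-- the cone of an open arc, the plane for `none` -/
def oC (x : Option Op.Ob) : Wc.Ob :=
  match x with
  | some p => ⟨sct p.1.1 p.1.2, sct_CU p.2.1 p.2.2⟩
  | none => ⟨Set.univ, CU_univ⟩

theorem oC_adm {x y : (Op.top ⊤ hOp).Ob} {F : ↥Ft} (h : (Op.top ⊤ hOp).Adm x F y) :
    Wc.Adm (oC x) (cf F) (oC y) := by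
  refine ⟨cf_mem F, ?_⟩
  match x, y, h with
  | some p, some q, h =>
    exact (Cnf_maps (cf_mem F) p.2 q.2).2 (by rw [cf_ph]; exact h)
  | some p, none, h => exact fun x _ => trivial
  | none, none, h => exact fun x _ => trivial

theorem oC_N {x : (Op.top ⊤ hOp).Ob} {F : ↥Ft} (h : F ∈ (Op.top ⊤ hOp).N x) :
    cf F ∈ Wc.N (oC x) := by
  match x, h with
  | some p, h =>
    exact ⟨cf_mem F, (Cnf_N (cf_mem F) p.2).2 (by rw [cf_ph]; exact h)⟩
  | none, h =>
    have h' : F ∈ (⊥ : Subgroup ↥Ft) := h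
    rw [Subgroup.mem_bot] at h'
    rw [h', map_one]
    exact Subgroup.one_mem _

/-- `Op ∪ {plane} → Wc` -/
def opW : (Op.top ⊤ hOp).Obj ⥤ Wc.Obj :=
  ActCat.functor (A := Op.top ⊤ hOp) (A' := Wc) oC cf oC_adm oC_N

theorem hiso_opW : HIso opW := by
  refine ActCat.hiso_functor (A := Op.top ⊤ hOp) (A' := Wc) oC cf oC_adm oC_N ?_ ?_ ?_
  · intro a b g' h
    have h1 : cf (g'.ph 0) = g' := cf_eq h.1
    refine ⟨g'.ph 0, ?_, ?_⟩
    · match a, b, h with
      | some p, some q, h => exact (Cnf_maps h.1 p.2 q.2).1 h.2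
      | some p, none, h => exact Subgroup.mem_top _
      | none, none, h => exact Subgroup.mem_top _
      | none, some q, h =>
        exfalso
        have h2 : g'.g 0 ∈ sct q.1.1 q.1.2 := h.2 0 trivial
        rw [Cnf_zero h.1] at h2
        exact zero_notMem_sct _ _ h2
    · rw [h1, inv_mul_cancel]
      exact Subgroup.one_mem _
  · intro a b g g' _ _ h
    match a, h with
    | some p, h =>
      have h1 : (cf (g⁻¹ * g')).ph 0 ∈ nbS (Set.Ioo p.1.1 p.1.2) :=
        (Cnf_N (cf_mem _) p.2).1 h.2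
      rw [cf_ph] at h1
      exact h1
    | none, h =>
      have h1 : (cf (g⁻¹ * g')).ph 0 = 1 := (h.2 0 trivial).2
      rw [cf_ph] at h1
      exact Subgroup.mem_bot.2 h1
  · intro b'
    rcases CU_cases b'.2 with h | ⟨a, b, hab, hb, h⟩
    · have h1 : oC none = b' := Subtype.ext h.symm
      refine ⟨none, 1, ?_, ?_⟩
      · rw [h1]
        exact Wc.one _
      · rw [h1, inv_one]
        exact Wc.one _
    · have h1 : oC (some ⟨(a, b), hab, hb⟩) = b' := Subtype.ext h.symm
      refine ⟨some ⟨(a, b), hab, hb⟩, 1, ?_, ?_⟩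
      · rw [h1]
        exact Wc.one _
      · rw [h1, inv_one]
        exact Wc.one _

end C715
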