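import Pool.Agent.Work.MP_c71557_gt.C.Ref
import Pool.Agent.Work.MP_c71557_gt.H.QA
import Pool.Agent.Work.MP_c71557_gt.H.ActDir

set_option autoImplicit false
set_option linter.unusedVariables false

/-!
# MP_c71557_gt, module C/StWi: forgetting the lines (S-M)

`quillenA_under` (H/QA) and `acy_under` (H/ActDir) for `StW = idFun oW _ _` at a cone `b = U₀`:
* nonempty: `a = (U₀, ∅)`, `g = 1`.
* `hdir`: `g_i : U₀ → a_i = (U_i, A_i)`: let `B_i` from `exists_ref` for `g_i`, `U₀`, `A_i`, and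
  `a3 = (U₀, B₁ ∪ B₂)` (`classical`, decidable equality), `g3 = 1`, `k_i = g_i`, admissible by
  `CellMap.mono`; `(k_i * 1)⁻¹ * g_i = 1`.
* `heq`: `g : U₀ → a = (U, A)`, `k, k' : a → a'` with `(k g)⁻¹ (k' g) ∈ Wc.N U₀`: `B` from `exists_ref`
  for `g`, `U₀`, `A`; `a3 = (U₀, B)`, `g3 = 1`, `m = g`; `(k g)⁻¹ (k' g) ∈ gCnf.Str.N (U₀, B)` is the
  same condition.
-/

noncomputable section

namespace C715

open Ang CategoryTheory
open scoped Topology

theorem hiso_StW : HIso StW := by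
  classical
  refine quillenA_under StW fun b => ?_
  have key : ∀ (a : gCnf.Str.Ob) (g : FGr), Wc.Adm b.o g (oW a) →
      ∃ B : Finset Ln, (∀ l ∈ B, l.c = 0) ∧ CellMap b.o.1 B g.g a.1.2 := fun a g h =>
    exists_ref h.1 b.o.1 a.1.2 fun l hl => a.2.2 l hl
  refine ActCat.acy_under (A := gCnf.Str) (A' := Wc) oW (fun h => ⟨h.1, h.2.1⟩) (fun h => h)
    b.o ?_ ?_ ?_
  · exact ⟨⟨(b.o.1, ∅), b.o.2, fun l hl => absurd hl (Finset.notMem_empty l)⟩, 1, Wc.one b.o⟩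
  · intro a1 g1 a2 g2 h1 h2
    obtain ⟨B1, hB1, c1⟩ := key a1 g1 h1
    obtain ⟨B2, hB2, c2⟩ := key a2 g2 h2
    refine ⟨⟨(b.o.1, B1 ∪ B2), b.o.2, fun l hl => ?_⟩, 1, g1, g2, Wc.one b.o,
      ⟨h1.1, h1.2, c1.mono Finset.subset_union_left⟩,
      ⟨h2.1, h2.2, c2.mono Finset.subset_union_right⟩, ?_, ?_⟩
    · rcases Finset.mem_union.1 hl with hl | hl
      · exact hB1 l hl
      · exact hB2 l hl
    · rw [mul_one, inv_mul_cancel]
      exact Subgroup.one_mem _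
    · rw [mul_one, inv_mul_cancel]
      exact Subgroup.one_mem _
  · intro a a' g k k' hg hk hk' h
    obtain ⟨B, hB, c⟩ := key a g hg
    refine ⟨⟨(b.o.1, B), b.o.2, fun l hl => hB l hl⟩, 1, g, Wc.one b.o, ⟨hg.1, hg.2, c⟩, ?_, h⟩
    rw [mul_one, inv_mul_cancel]
    exact Subgroup.one_mem _

end C715
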