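import Pool.Agent.Work.MP_c71557_gt.C.Defs
import Pool.Agent.Work.MP_c71557_gt.H.QA
import Pool.Agent.Work.MP_c71557_gt.H.ActDir

set_option autoImplicit false
set_option linter.unusedVariables false

/-!
# MP_c71557_gt, module C/XCl: compact intervals in all intervals (M)

Quillen A (`quillenA_over`, H/QA) for `clX = topMap …`, which is by definition
`idFun (Option.map clO) …`.  Let `b` be an object of `XA.top ⊤`.
* `b = none`: `acy_over_top` (H/ActDir) with `a0 = none`, `g0 = 1`, `k = g`.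
* `b = some S`, `S` a compact interval (`S.h = Or.inl …`): `acy_over_top` with `a0` the cell, `g0 = 1`:
  every admissible `g : f a → b` has `a = some a'` (there are no arrows out of `none` except to
  `none`) and `k = g` is admissible by `clO_adm'`.
* `b = some S`, `S = (c, d)` open: `acy_over`.  Nonempty: the cell `[(c+d)/2, (c+d)/2]`, `g = 1`.
  `hdir`: `g1 : a1 → S`, `g2 : a2 → S` with integers `k1`, `k2`: the four numbers
  `g_i.f (a_i.lo) + 2π k_i ≤ g_i.f (a_i.hi) + 2π k_i` lie in `(c, d)`; let `a3 = [lo, hi]` with `lo`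
  the minimum and `hi` the maximum of them (`hi - lo < d - c ≤ π`); `g3 = 1`, `k1 = g1`, `k2 = g2`.
Thinness in all cases: `N` of `f a` in `XA.top` and of `a` in `KK` are the same (`clO_N`; `⊥` for
`none`).
-/

noncomputable section

namespace C715

open CategoryTheory

namespace Ang

open XX ActCat

private theorem cl_adm {a b : KK.Ob} {g : ↥Ft} (h : KK.Adm a g b) :
    (XA.top ⊤ hXA).Adm (Option.map clO a) g (Option.map clO b) := by
  rcases a with _ | a <;> rcases b with _ | b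
  · exact h
  · exact h
  · exact h
  · exact clO_adm h

private theorem cl_N {a : KK.Ob} {n : ↥Ft} (h : n ∈ KK.N a) : n ∈ (XA.top ⊤ hXA).N (Option.map clO a) := by
  rcases a with _ | a
  · exact h
  · exact clO_N.2 h

private theorem thin_cl (a : KK.Ob) {n : ↥Ft} (h : n ∈ (XA.top ⊤ hXA).N (Option.map clO a)) : n ∈ KK.N a := by
  rcases a with _ | a
  · exact h
  · exact clO_N.1 h

private theorem one_aux {Γ : Type} [Group Γ] (N : Subgroup Γ) (g : Γ) : (1 * g)⁻¹ * g ∈ N := by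
  rw [one_mul, inv_mul_cancel]
  exact N.one_mem

private theorem acy_some_open (S : SA) (c d : ℝ) (hcd : c < d) (hd : d ≤ c + Real.pi) (hS : S.S = Set.Ioo c d) :
    Acy (CostructuredArrow clX (⟨some S⟩ : (XA.top ⊤ hXA).Obj)) := by
  have hpi := Real.pi_pos
  refine acy_over (A := KK) (A' := XA.top ⊤ hXA) (Option.map clO) cl_adm cl_N (some S) ?_ ?_ ?_
  · refine ⟨some (⟨⟨(c + d) / 2, (c + d) / 2, le_rfl⟩, by unfold ShC; linarith⟩ : Arc.Ob), 1, ?_⟩
    refine ⟨0, fun s hs => ?_⟩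
    have hs' : (c + d) / 2 ≤ s ∧ s ≤ (c + d) / 2 := hs
    change s + ((0 : ℤ) : ℝ) * (2 * Real.pi) ∈ S.S
    rw [Int.cast_zero, zero_mul, add_zero, hS]
    exact ⟨by linarith [hs'.1], by linarith [hs'.2]⟩
  · intro a1 g1 a2 g2 h1 h2
    rcases a1 with _ | a1
    · exact h1.elim
    rcases a2 with _ | a2
    · exact h2.elim
    obtain ⟨k1, hk1⟩ := h1
    obtain ⟨k2, hk2⟩ := h2
    have e1 : (g1 : XX).f a1.1.lo + k1 * (2 * Real.pi) ∈ Set.Ioo c d := by
      rw [← hS]; exact hk1 _ ⟨le_rfl, a1.1.le⟩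
    have e2 : (g1 : XX).f a1.1.hi + k1 * (2 * Real.pi) ∈ Set.Ioo c d := by
      rw [← hS]; exact hk1 _ ⟨a1.1.le, le_rfl⟩
    have e3 : (g2 : XX).f a2.1.lo + k2 * (2 * Real.pi) ∈ Set.Ioo c d := by
      rw [← hS]; exact hk2 _ ⟨le_rfl, a2.1.le⟩
    have e4 : (g2 : XX).f a2.1.hi + k2 * (2 * Real.pi) ∈ Set.Ioo c d := by
      rw [← hS]; exact hk2 _ ⟨a2.1.le, le_rfl⟩
    have l1 : (g1 : XX).f a1.1.lo + k1 * (2 * Real.pi) ≤ (g1 : XX).f a1.1.hi + k1 * (2 * Real.pi) :=
      add_le_add_left (OrderIso.monotone _ a1.1.le) _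
    have hlo : c < min ((g1 : XX).f a1.1.lo + k1 * (2 * Real.pi)) ((g2 : XX).f a2.1.lo + k2 * (2 * Real.pi)) :=
      lt_min e1.1 e3.1
    have hhi : max ((g1 : XX).f a1.1.hi + k1 * (2 * Real.pi)) ((g2 : XX).f a2.1.hi + k2 * (2 * Real.pi)) < d :=
      max_lt e2.2 e4.2
    refine ⟨some (⟨⟨min ((g1 : XX).f a1.1.lo + k1 * (2 * Real.pi)) ((g2 : XX).f a2.1.lo + k2 * (2 * Real.pi)),
      max ((g1 : XX).f a1.1.hi + k1 * (2 * Real.pi)) ((g2 : XX).f a2.1.hi + k2 * (2 * Real.pi)),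
      (min_le_left _ _).trans (l1.trans (le_max_left _ _))⟩, by
        unfold ShC
        dsimp only
        linarith⟩ : Arc.Ob), 1, g1, g2, ?_, ?_, ?_, one_aux _ _, one_aux _ _⟩
    · refine ⟨0, fun s hs => ?_⟩
      obtain ⟨h3, h4⟩ := hs
      change s + ((0 : ℤ) : ℝ) * (2 * Real.pi) ∈ S.S
      rw [Int.cast_zero, zero_mul, add_zero, hS]
      exact ⟨hlo.trans_le h3, h4.trans_lt hhi⟩
    · refine ⟨k1, ?_, ?_⟩
      · rw [Ft_tau_f]
        exact min_le_left _ _
      · rw [Ft_tau_f]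
        exact le_max_left _ _
    · refine ⟨k2, ?_, ?_⟩
      · rw [Ft_tau_f]
        exact min_le_right _ _
      · rw [Ft_tau_f]
        exact le_max_right _ _
  · intro a a' g k k' _ _ _ h
    exact thin_cl a h

theorem hiso_clX : HIso clX := by
  refine quillenA_over clX fun b => ?_
  obtain ⟨b⟩ := b
  rcases b with _ | S
  · refine acy_over_top (A := KK) (A' := XA.top ⊤ hXA) (Option.map clO) cl_adm cl_N none none 1 trivial ?_ ?_
    · intro a g _
      refine ⟨g, ?_, one_aux _ _⟩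
      rcases a with _ | a
      · trivial
      · trivial
    · intro a k k' _ _ h
      exact thin_cl a h
  · rcases S.h with ⟨c, d, hcd, hd, hS⟩ | ⟨c, d, hcd, hd, hS⟩
    · have hSc : S = clO (⟨⟨c, d, hcd⟩, hd⟩ : Arc.Ob) := SA.ext hS
      subst hSc
      refine acy_over_top (A := KK) (A' := XA.top ⊤ hXA) (Option.map clO) cl_adm cl_N (some (clO (⟨⟨c, d, hcd⟩, hd⟩ : Arc.Ob)))
        (some (⟨⟨c, d, hcd⟩, hd⟩ : Arc.Ob)) 1 (XA.one _) ?_ ?_
      · intro a g h
        rcases a with _ | a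
        · exact h.elim
        · exact ⟨g, clO_adm' h, one_aux _ _⟩
      · intro a k k' _ _ h
        exact thin_cl a h
    · exact acy_some_open S c d hcd hd hS

end Ang
end C715
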