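import Pool.Agent.Work.MP_c71557_gt.C.Defs
import Pool.Agent.Work.MP_c71557_gt.A.Per
import Pool.Agent.Work.MP_c71557_gt.H.QA
import Pool.Agent.Work.MP_c71557_gt.H.ActDir

set_option autoImplicit false
set_option linter.unusedVariables false

/-!
# MP_c71557_gt, module C/XOp: open intervals in all intervals (M)

* `exists_contr`: `c = d`: `F = 1`.  `c < d`: `exists_ext` (A/Ext) with `G = 1`, `H = rot (c + 1 - d)`
  gives `F0 ∈ XX` with `F0.f c = c`, `F0.f d = c + 1`; `exists_Ft` (A/Per) gives `P ∈ Ft` equal to `F0`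
  near `[c, d]`; `1 < π`.
* `hiso_opX`: Quillen A (`quillenA_under`, H/QA) for `opX = topMap … = idFun (Option.map opO) …`, and
  `acy_under` (H/ActDir) for every object `b` of `XA.top ⊤`.
  - `b = none`: only `a = none` receives arrows; `a3 = none`, `g3 = 1`, `k_i = g_i`; `heq`: the
    hypothesis says `k g = k' g`, take `a3 = none`, `g3 = 1`, `m = g`.
  - `b = some S`, `S = (c, d)` open: `b = f a0` with `a0 = (c, d)`; always `a3 = some a0`, `g3 = 1`,
    `k_i = g_i`, `m = g`.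
  - `b = some S`, `S = [c, d]` compact, `c ≤ d < c + 2π`: take `F` from `exists_contr`; for small
    `e > 0` (continuity) the open interval `a(e) = (F.f (c - e), F.f (d + e))` has length `≤ π`, and
    `F : S → a(e)` is admissible.  Nonempty: `a = a(e)`, `g = F`.  `hdir`: `g_i : S → a_i` admissible
    with integers `l_i`, `a_i = none` or open; for small `e`, `g_i` maps `(c - e, d + e)` into `a_i`
    (openness and continuity); `a3 = a(e)`, `g3 = F`, `k_i = g_i F⁻¹`; `(k_i g3)⁻¹ g_i = 1`.  `heq`: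
    `g : S → a`, `k, k' : a → a'`, `(k g)⁻¹ (k' g)` is the identity in an open `U ⊇ [c, d]`
    (if `a = none`, then `a' = none`); for small `e`: `[c - e, d + e] ⊆ U` and `g` maps
    `(c - e, d + e)` into `a`; `a3 = a(e)`, `g3 = F`, `m = g F⁻¹`; then
    `(k m)⁻¹ (k' m) = F ((k g)⁻¹ (k' g)) F⁻¹` is the identity on `(F.f (c - e), F.f (d + e))`.
-/

noncomputable section

namespace C715

open CategoryTheory

namespace Ang

open XX ActCat

theorem exists_contr {c d : ℝ} (hcd : c ≤ d) (hd : d < c + 2 * Real.pi) :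
    ∃ F : ↥Ft, (F : XX).f d < (F : XX).f c + Real.pi := by
  have hpi := Real.pi_gt_three
  rcases hcd.eq_or_lt with h | h
  · refine ⟨1, ?_⟩
    change d < c + Real.pi
    linarith
  · obtain ⟨F0, h1, h2⟩ := exists_ext 1 (rot (c + 1 - d)) h (by
      rw [one_f, rot_f]
      linarith)
    have h3 : F0.f c = c := congrArg Prod.fst (h1 c le_rfl)
    have h4 : F0.f d = c + 1 := by
      have h5 : F0.f d = d + (c + 1 - d) := congrArg Prod.fst (h2 d le_rfl)
      rw [h5]
      ring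
    obtain ⟨P, hP, e, he, h5⟩ := exists_Ft F0 hcd hd (by rw [h3, h4]; linarith)
    have h6 : P.f c = F0.f c := congrArg Prod.fst (h5 c (by linarith) (by linarith))
    have h7 : P.f d = F0.f d := congrArg Prod.fst (h5 d (by linarith) (by linarith))
    refine ⟨⟨P, hP⟩, ?_⟩
    change P.f d < P.f c + Real.pi
    rw [h6, h7, h3, h4]
    linarith

private theorem op_adm {a b : (Op.top ⊤ hOp).Ob} {g : ↥Ft} (h : (Op.top ⊤ hOp).Adm a g b) :
    (XA.top ⊤ hXA).Adm (Option.map opO a) g (Option.map opO b) := by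
  rcases a with _ | a <;> rcases b with _ | b
  · exact h
  · exact h
  · exact h
  · exact h

private theorem op_N {a : (Op.top ⊤ hOp).Ob} {n : ↥Ft} (h : n ∈ (Op.top ⊤ hOp).N a) :
    n ∈ (XA.top ⊤ hXA).N (Option.map opO a) := by
  rcases a with _ | a
  · exact h
  · exact h

private theorem one_aux {Γ : Type} [Group Γ] (N : Subgroup Γ) (g : Γ) : (g * 1)⁻¹ * g ∈ N := by
  rw [mul_one, inv_mul_cancel]
  exact N.one_mem

private theorem one_aux' {Γ : Type} [Group Γ] (N : Subgroup Γ) (g F : Γ) : (g * F⁻¹ * F)⁻¹ * g ∈ N := by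
  rw [inv_mul_cancel_right, inv_mul_cancel]
  exact N.one_mem

private theorem acy_none : Acy (StructuredArrow (⟨none⟩ : (XA.top ⊤ hXA).Obj) opX) := by
  refine acy_under (A := Op.top ⊤ hOp) (A' := XA.top ⊤ hXA) (Option.map opO) op_adm op_N none ?_ ?_ ?_
  · exact ⟨none, 1, trivial⟩
  · intro a1 g1 a2 g2 h1 h2
    rcases a1 with _ | a1
    swap
    · exact h1.elim
    rcases a2 with _ | a2
    swap
    · exact h2.elim
    exact ⟨none, 1, g1, g2, trivial, trivial, trivial, one_aux _ _, one_aux _ _⟩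
  · intro a a' g k k' h1 h2 h3 h4
    rcases a with _ | a
    swap
    · exact h1.elim
    rcases a' with _ | a'
    swap
    · exact h2.elim
    exact ⟨none, 1, g, trivial, trivial, one_aux _ _, h4⟩

private theorem acy_open (a0 : Op.Ob) : Acy (StructuredArrow (⟨some (opO a0)⟩ : (XA.top ⊤ hXA).Obj) opX) := by
  have hadm : ∀ (a : (Op.top ⊤ hOp).Ob) (g : ↥Ft), (XA.top ⊤ hXA).Adm (some (opO a0)) g (Option.map opO a) →
      (Op.top ⊤ hOp).Adm (some a0) g a := by
    intro a g h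
    rcases a with _ | a
    · exact h
    · exact h
  refine acy_under (A := Op.top ⊤ hOp) (A' := XA.top ⊤ hXA) (Option.map opO) op_adm op_N (some (opO a0)) ?_ ?_ ?_
  · exact ⟨some a0, 1, XA.one _⟩
  · intro a1 g1 a2 g2 h1 h2
    exact ⟨some a0, 1, g1, g2, XA.one _, hadm _ _ h1, hadm _ _ h2, one_aux _ _, one_aux _ _⟩
  · intro a a' g k k' h1 h2 h3 h4
    exact ⟨some a0, 1, g, XA.one _, hadm _ _ h1, one_aux _ _, h4⟩

/-- the identity near a compact interval -/
private theorem nb_small {c d : ℝ} (hcd : c ≤ d) (hd : d < c + 2 * Real.pi) {n : ↥Ft}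
    (h : n ∈ nbS (Set.Icc c d)) :
    ∃ e1 : ℝ, 0 < e1 ∧ ∀ e, 0 < e → e ≤ e1 → n ∈ nbS (Set.Ioo (c - e) (d + e)) := by
  have h1 : n ∈ Arc.N (⟨⟨c, d, hcd⟩, hd⟩ : Arc.Ob) := clO_N.1 h
  obtain ⟨e, he, h2⟩ := h1
  refine ⟨e, he, fun e' he' hee => ⟨Set.Ioo (c - e') (d + e'), isOpen_Ioo, le_rfl, fun s hs => h2 s ?_ ?_⟩⟩
  · have : c - e' < s := hs.1
    change c - e ≤ s
    linarith
  · have : s < d + e' := hs.2
    change s ≤ d + e
    linarith

/-- maps into an open interval -/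
private theorem maps_small {c d p q : ℝ} (hcd : c ≤ d) {g : ↥Ft} (h : MapsM (Set.Icc c d) g (Set.Ioo p q)) :
    ∃ e1 : ℝ, 0 < e1 ∧ ∀ e, 0 < e → e ≤ e1 → MapsM (Set.Ioo (c - e) (d + e)) g (Set.Ioo p q) := by
  obtain ⟨k, hk⟩ := h
  have h1 := (hk c ⟨le_rfl, hcd⟩).1
  have h2 := (hk d ⟨hcd, le_rfl⟩).2
  have hc1 : Continuous (fun e : ℝ => (g : XX).f (c - e) + k * (2 * Real.pi)) :=
    ((g : XX).continuous_f.comp (continuous_const.sub continuous_id)).add continuous_const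
  have hc2 : Continuous (fun e : ℝ => (g : XX).f (d + e) + k * (2 * Real.pi)) :=
    ((g : XX).continuous_f.comp (continuous_const.add continuous_id)).add continuous_const
  have e1 : ∀ᶠ e in nhds (0 : ℝ), p < (g : XX).f (c - e) + k * (2 * Real.pi) := by
    apply hc1.continuousAt.eventually_const_lt
    simpa using h1
  have e2 : ∀ᶠ e in nhds (0 : ℝ), (g : XX).f (d + e) + k * (2 * Real.pi) < q := by
    apply hc2.continuousAt.eventually_lt_const
    simpa using h2
  obtain ⟨ε, hε, h3⟩ := Metric.eventually_nhds_iff.1 (e1.and e2)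
  obtain ⟨h4, h5⟩ := h3 (y := ε / 2) (by rw [Real.dist_eq, sub_zero, abs_of_pos (half_pos hε)]; linarith)
  refine ⟨ε / 2, half_pos hε, fun e he hee => ⟨k, fun s hs => ⟨?_, ?_⟩⟩⟩
  · have h6 : (g : XX).f (c - ε / 2) ≤ (g : XX).f s := OrderIso.monotone _ (by linarith [hs.1])
    linarith
  · have h6 : (g : XX).f s ≤ (g : XX).f (d + ε / 2) := OrderIso.monotone _ (by linarith [hs.2])
    linarith

private theorem maps_inv (F : ↥Ft) (x y : ℝ) :
    MapsM (Set.Ioo ((F : XX).f x) ((F : XX).f y)) F⁻¹ (Set.Ioo x y) := by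
  refine ⟨0, fun s hs => ?_⟩
  rw [Int.cast_zero, zero_mul, add_zero]
  have h1 : (F : XX).f ((F : XX)⁻¹.f s) = s := f_inv_f _ _
  change (F : XX)⁻¹.f s ∈ Set.Ioo x y
  constructor
  · apply (F : XX).f.lt_iff_lt.1
    rw [h1]
    exact hs.1
  · apply (F : XX).f.lt_iff_lt.1
    rw [h1]
    exact hs.2

private theorem acy_comp (S : SA) {c d : ℝ} (hcd : c ≤ d) (hd : d < c + 2 * Real.pi) (hS : S.S = Set.Icc c d) :
    Acy (StructuredArrow (⟨some S⟩ : (XA.top ⊤ hXA).Obj) opX) := by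
  obtain ⟨F, hF⟩ := exists_contr hcd hd
  -- the open intervals
  obtain ⟨e0, he0, hlen⟩ : ∃ e0 : ℝ, 0 < e0 ∧ ∀ e, 0 < e → e ≤ e0 →
      (F : XX).f (c - e) < (F : XX).f (d + e) ∧ (F : XX).f (d + e) ≤ (F : XX).f (c - e) + Real.pi := by
    have hc1 : Continuous (fun e : ℝ => (F : XX).f (d + e) - (F : XX).f (c - e)) :=
      ((F : XX).continuous_f.comp (continuous_const.add continuous_id)).sub
        ((F : XX).continuous_f.comp (continuous_const.sub continuous_id))
    have e1 : ∀ᶠ e in nhds (0 : ℝ), (F : XX).f (d + e) - (F : XX).f (c - e) < Real.pi := by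
      apply hc1.continuousAt.eventually_lt_const
      show (F : XX).f (d + 0) - (F : XX).f (c - 0) < Real.pi
      rw [add_zero, sub_zero]
      linarith
    obtain ⟨ε, hε, h3⟩ := Metric.eventually_nhds_iff.1 e1
    refine ⟨ε / 2, half_pos hε, fun e he hee => ⟨(F : XX).f.strictMono (by linarith), ?_⟩⟩
    have h4 := h3 (y := e) (by rw [Real.dist_eq, sub_zero, abs_of_pos he]; linarith)
    linarith
  set ae : ∀ e : ℝ, 0 < e → e ≤ e0 → Op.Ob := fun e h1 h2 =>
    ⟨((F : XX).f (c - e), (F : XX).f (d + e)), hlen e h1 h2⟩ with hae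
  have hFadm : ∀ e (h1 : 0 < e) (h2 : e ≤ e0), (XA.top ⊤ hXA).Adm (some S) F
      (Option.map opO (some (ae e h1 h2))) := by
    intro e h1 h2
    refine ⟨0, fun s hs => ?_⟩
    rw [hS] at hs
    rw [Int.cast_zero, zero_mul, add_zero]
    exact ⟨(F : XX).f.strictMono (by linarith [hs.1]), (F : XX).f.strictMono (by linarith [hs.2])⟩
  have hadm : ∀ (a : (Op.top ⊤ hOp).Ob) (g : ↥Ft), (XA.top ⊤ hXA).Adm (some S) g (Option.map opO a) →
      ∃ e1 : ℝ, 0 < e1 ∧ ∀ e (h1 : 0 < e) (h2 : e ≤ e0), e ≤ e1 →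
        (Op.top ⊤ hOp).Adm (some (ae e h1 h2)) (g * F⁻¹) a := by
    intro a g h
    rcases a with _ | a
    · exact ⟨1, one_pos, fun e h1 h2 _ => trivial⟩
    · have h' : MapsM S.S g (Set.Ioo a.1.1 a.1.2) := h
      rw [hS] at h'
      obtain ⟨e1, he1, h3⟩ := maps_small hcd h'
      exact ⟨e1, he1, fun e h1 h2 h4 => (maps_inv F (c - e) (d + e)).mul (h3 e h1 h4)⟩
  refine acy_under (A := Op.top ⊤ hOp) (A' := XA.top ⊤ hXA) (Option.map opO) op_adm op_N (some S) ?_ ?_ ?_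
  · exact ⟨some (ae e0 he0 le_rfl), F, hFadm e0 he0 le_rfl⟩
  · intro a1 g1 a2 g2 h1 h2
    obtain ⟨e1, he1, h3⟩ := hadm a1 g1 h1
    obtain ⟨e2, he2, h4⟩ := hadm a2 g2 h2
    have hm : 0 < min e0 (min e1 e2) := lt_min he0 (lt_min he1 he2)
    have hm0 : min e0 (min e1 e2) ≤ e0 := min_le_left _ _
    have hm1 : min e0 (min e1 e2) ≤ e1 := (min_le_right _ _).trans (min_le_left _ _)
    have hm2 : min e0 (min e1 e2) ≤ e2 := (min_le_right _ _).trans (min_le_right _ _)
    exact ⟨some (ae _ hm hm0), F, g1 * F⁻¹, g2 * F⁻¹, hFadm _ hm hm0, h3 _ hm hm0 hm1, h4 _ hm hm0 hm2,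
      one_aux' _ _ _, one_aux' _ _ _⟩
  · intro a a' g k k' h1 h2 h3 h4
    obtain ⟨e1, he1, h5⟩ := hadm a g h1
    have h4' : (k * g)⁻¹ * (k' * g) ∈ nbS S.S := h4
    rw [hS] at h4'
    obtain ⟨e2, he2, h6⟩ := nb_small hcd hd h4'
    have hm : 0 < min e0 (min e1 e2) := lt_min he0 (lt_min he1 he2)
    have hm0 : min e0 (min e1 e2) ≤ e0 := min_le_left _ _
    have hm1 : min e0 (min e1 e2) ≤ e1 := (min_le_right _ _).trans (min_le_left _ _)
    have hm2 : min e0 (min e1 e2) ≤ e2 := (min_le_right _ _).trans (min_le_right _ _)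
    refine ⟨some (ae _ hm hm0), F, g * F⁻¹, hFadm _ hm hm0, h5 _ hm hm0 hm1, one_aux' _ _ _, ?_⟩
    have h7 := (maps_inv F (c - min e0 (min e1 e2)) (d + min e0 (min e1 e2))).conj (h6 _ hm hm2)
    have h8 : F⁻¹⁻¹ * ((k * g)⁻¹ * (k' * g)) * F⁻¹ = (k * (g * F⁻¹))⁻¹ * (k' * (g * F⁻¹)) := by group
    rw [h8] at h7
    exact h7

theorem hiso_opX : HIso opX := by
  refine quillenA_under opX fun b => ?_
  obtain ⟨b⟩ := b
  rcases b with _ | S
  · exact acy_none
  · rcases S.h with ⟨c, d, hcd, hd, hS⟩ | ⟨c, d, hcd, hd, hS⟩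
    · exact acy_comp S hcd hd hS
    · have hSc : S = opO (⟨(c, d), hcd, hd⟩ : Op.Ob) := SA.ext hS
      subst hSc
      exact acy_open _

end Ang
end C715
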