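import Pool.Agent.Work.MP_c71557_gt.C.KKz
import Pool.Agent.Work.MP_c71557_gt.C.XCl
import Pool.Agent.Work.MP_c71557_gt.C.XOp
import Pool.Agent.Work.MP_c71557_gt.C.OpW
import Pool.Agent.Work.MP_c71557_gt.C.StWi

set_option autoImplicit false
set_option linter.unusedVariables false

/-!
# MP_c71557_gt, module C/Cone: the cone theorem

`Str gCnf → Wc ← Op ∪ {plane} → XA ∪ {plane} ← KK`, all homology isomorphisms, and `KK_zero`.
-/

noncomputable section

namespace C715

open Ang CategoryTheory
open scoped Topology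


theorem cone_zero (n : ℕ) (h1 : 1 ≤ n) (h2 : n ≤ 5) : Subsingleton (HC gCnf.Str.Obj n) := by
  have k1 : Subsingleton (HC KK.Obj n) := KK_zero n h1 h2
  have k2 : Subsingleton (HC (XA.top ⊤ hXA).Obj n) := (hiso_clX n).2.subsingleton
  have k3 : Subsingleton (HC (Op.top ⊤ hOp).Obj n) := (hiso_opX n).1.subsingleton
  have k4 : Subsingleton (HC Wc.Obj n) := (hiso_opW n).2.subsingleton
  exact (hiso_StW n).1.subsingleton

end C715
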