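import Pool.Agent.Work.MP_c71557_gt.C.Defs
import Pool.Agent.Work.MP_c71557_gt.A.ActFF
import Pool.Agent.Work.MP_c71557_gt.A.Per

set_option autoImplicit false
set_option linter.unusedVariables false

/-!
# MP_c71557_gt, module C/ArcA: three equivalences (S-M)

`hiso_functor` (A/ActFF) for each of the three functors; all are the identity on objects
(`hess`: `a = b'`, `g = 1`).  The main point: for short cells (`b.hi < b.lo + 2π`) and
`F ∈ Ft`, the integer `k` with `Into a (F tau^k) b` is unique, because `(F tau^k).f s = F.f s + 2πk`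
(`Ft_tau_f`, C/Defs) and `b` has length `< 2π`.
* `AcgArc`: full: `⟨k, h⟩ : Arc.Adm a F b` is the image of `(F, ofAdd k)`.  Faithful:
  `(F, k)`, `(F', k')` admissible `a → b` and `F⁻¹ F'` the identity near `a` give `k = k'` (as
  `F.f a.lo = F'.f a.lo`) and the claim.
* `AcsArc`: the same with `N = ⊥`.
* `AcgBcs`: `(F, k) ↦ (F tau^k, k)`.  Full: let `(G, k)`, `G ∈ XX`, `Into a G b`, `a`, `b` short: by
  `exists_Ft` (A/Per) there is `P ∈ Ft` equal to `G` near `[a.lo, a.hi]` (`G.f a.hi ≤ b.hi < b.lo +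
  2π ≤ G.f a.lo + 2π`); take `(P tau^{-k}, k)` (`tau_mem`, `tau ∈ Ft`).  Faithful: `mZ (g⁻¹ g')` in
  `nb × ⊥` gives `k = k'` and then `g⁻¹ g' = (F⁻¹ F', 1)` with `F⁻¹ F'` the identity near `a`.
-/

noncomputable section

namespace C715

open CategoryTheory

namespace Ang

open XX ActCat

/-- values of `F tau^k` at the lower end -/
private theorem into_lo {a b : Cell} {F : XX} (h : Into a F b) : b.lo ≤ F.f a.lo ∧ F.f a.lo ≤ b.hi :=
  ⟨h.1, (F.f.monotone a.le).trans h.2⟩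

/-- uniqueness of `k` -/
private theorem k_unique {a b : Cell} (hb : ShC b) {F F' : ↥Ft} {k k' : ℤ}
    (h : Into a ((F : XX) * tau ^ k) b) (h' : Into a ((F' : XX) * tau ^ k') b)
    (e : (F : XX).f a.lo = (F' : XX).f a.lo) : k = k' := by
  have h1 := into_lo h
  have h2 := into_lo h'
  rw [Ft_tau_f] at h1 h2
  rw [← e] at h2
  have hb' : b.hi < b.lo + 2 * Real.pi := hb
  have hπ := Real.pi_pos
  by_contra hne
  rcases lt_or_gt_of_ne hne with h3 | h3
  · have h4 : (k : ℝ) + 1 ≤ k' := by exact_mod_cast h3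
    nlinarith [h1.1, h1.2, h2.1, h2.2]
  · have h4 : (k' : ℝ) + 1 ≤ k := by exact_mod_cast h3
    nlinarith [h1.1, h1.2, h2.1, h2.2]

private theorem hN1 {a : Acg.Ob} {n : ↥Ft × Multiplicative ℤ} (h : n ∈ Acg.N a) :
    mZ n ∈ Bcs.N a := by
  have h1 : (n.1 : XX) ∈ nb a.1.lo a.1.hi := h.1
  have h2 : n.2 = 1 := h.2
  have h3 : (mZ n).1 = (n.1 : XX) := by
    change (n.1 : XX) * tau ^ (Multiplicative.toAdd n.2) = _
    rw [h2]
    change (n.1 : XX) * tau ^ (0 : ℤ) = _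
    rw [zpow_zero, mul_one]
  refine ⟨?_, h2⟩
  change (mZ n).1 ∈ nb a.1.lo a.1.hi
  rw [h3]
  exact h1

private theorem hN2 {a : Acs.Ob} {n : ↥Ft × Multiplicative ℤ} (h : n ∈ Acs.N a) :
    (MonoidHom.fst ↥Ft (Multiplicative ℤ)) n ∈ Arc.bot.N a := by
  have h' : n ∈ (⊥ : Subgroup (↥Ft × Multiplicative ℤ)) := h
  rw [Subgroup.mem_bot] at h'
  subst h'
  exact Subgroup.one_mem _

theorem hiso_AcgBcs : HIso AcgBcs := by
  refine hiso_functor (A := Acg) (A' := Bcs) (fun a => a) mZ (fun h => h) (fun h => hN1 h) ?_ ?_ ?_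
  · intro a b g' h
    have h0 : Into a.1 g'.1 b.1 := h
    have ha : a.1.hi < a.1.lo + 2 * Real.pi := a.2
    have hb : b.1.hi < b.1.lo + 2 * Real.pi := b.2
    obtain ⟨P, hP, e, he, hPe⟩ := exists_Ft g'.1 a.1.le ha (by
      have h1 := h0.1
      have h2 := h0.2
      linarith)
    have hm := mZ_mZi ((⟨P, hP⟩ : ↥Ft), g'.2)
    have hm1 : (mZ (mZi ((⟨P, hP⟩ : ↥Ft), g'.2))).1 = P := congrArg Prod.fst hm
    have hle := a.1.le
    have hlo : P.f a.1.lo = g'.1.f a.1.lo := congrArg Prod.fst (hPe a.1.lo (by linarith) (by linarith))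
    have hhi : P.f a.1.hi = g'.1.f a.1.hi := congrArg Prod.fst (hPe a.1.hi (by linarith) (by linarith))
    refine ⟨mZi ((⟨P, hP⟩ : ↥Ft), g'.2), ?_, ?_⟩
    · change Into a.1 (mZ (mZi ((⟨P, hP⟩ : ↥Ft), g'.2))).1 b.1
      rw [hm1]
      refine ⟨?_, ?_⟩
      · rw [hlo]; exact h0.1
      · rw [hhi]; exact h0.2
    · rw [hm]
      refine ⟨?_, ?_⟩
      · change P⁻¹ * g'.1 ∈ nb a.1.lo a.1.hi
        exact ⟨e, he, fun s h1 h2 => inv_mul_ev.2 (hPe s h1 h2)⟩
      · change g'.2⁻¹ * g'.2 ∈ (⊥ : Subgroup (Multiplicative ℤ))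
        rw [inv_mul_cancel]
        exact Subgroup.one_mem _
  · intro a b g g' _ _ h
    have h2 : (g⁻¹ * g').2 = 1 := h.2
    have h1 : (mZ (g⁻¹ * g')).1 ∈ nb a.1.lo a.1.hi := h.1
    have h3 : (mZ (g⁻¹ * g')).1 = ((g⁻¹ * g').1 : XX) := by
      change ((g⁻¹ * g').1 : XX) * tau ^ (Multiplicative.toAdd (g⁻¹ * g').2) = _
      rw [h2]
      change ((g⁻¹ * g').1 : XX) * tau ^ (0 : ℤ) = _
      rw [zpow_zero, mul_one]
    rw [h3] at h1
    exact ⟨h1, h2⟩
  · intro b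
    refine ⟨b, 1, Bcs.one b, ?_⟩
    rw [inv_one]
    exact Bcs.one b

theorem hiso_AcgArc : HIso AcgArc := by
  refine hiso_functor (A := Acg) (A' := Arc) (fun a => a) (MonoidHom.fst ↥Ft (Multiplicative ℤ))
    (fun {a b g} h => ⟨Multiplicative.toAdd g.2, h⟩) (fun h => h.1) ?_ ?_ ?_
  · intro a b F h
    obtain ⟨k, hk⟩ := h
    refine ⟨(F, Multiplicative.ofAdd k), hk, ?_⟩
    change F⁻¹ * F ∈ Arc.N a
    rw [inv_mul_cancel]
    exact Subgroup.one_mem _
  · intro a b g g' hg hg' h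
    have h1 : ((g⁻¹ * g').1 : XX) ∈ nb a.1.lo a.1.hi := h
    have h1' : (g.1 : XX)⁻¹ * (g'.1 : XX) ∈ nb a.1.lo a.1.hi := h1
    obtain ⟨e, he, h3⟩ := h1'
    have h4 := inv_mul_ev.1 (h3 a.1.lo (by linarith) (by linarith [a.1.le]))
    have h5 : (g.1 : XX).f a.1.lo = (g'.1 : XX).f a.1.lo := congrArg Prod.fst h4
    have h6 : Multiplicative.toAdd g.2 = Multiplicative.toAdd g'.2 :=
      k_unique b.2 (F := g.1) (F' := g'.1) hg hg' h5
    have h7 : g.2 = g'.2 := h6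
    refine ⟨h1, ?_⟩
    change g.2⁻¹ * g'.2 ∈ (⊥ : Subgroup (Multiplicative ℤ))
    rw [h7, inv_mul_cancel]
    exact Subgroup.one_mem _
  · intro b
    refine ⟨b, 1, Arc.one b, ?_⟩
    rw [inv_one]
    exact Arc.one b

theorem hiso_AcsArc : HIso AcsArc := by
  refine hiso_functor (A := Acs) (A' := Arc.bot) (fun a => a)
    (MonoidHom.fst ↥Ft (Multiplicative ℤ))
    (fun {a b g} h => ⟨Multiplicative.toAdd g.2, h⟩) (fun h => hN2 h) ?_ ?_ ?_
  · intro a b F h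
    obtain ⟨k, hk⟩ := h
    refine ⟨(F, Multiplicative.ofAdd k), hk, ?_⟩
    change F⁻¹ * F ∈ Arc.bot.N a
    rw [inv_mul_cancel]
    exact Subgroup.one_mem _
  · intro a b g g' hg hg' h
    have h1 : g.1⁻¹ * g'.1 ∈ (⊥ : Subgroup ↥Ft) := h
    rw [Subgroup.mem_bot, inv_mul_eq_one] at h1
    have h5 : (g.1 : XX).f a.1.lo = (g'.1 : XX).f a.1.lo := by rw [h1]
    have h6 : Multiplicative.toAdd g.2 = Multiplicative.toAdd g'.2 :=
      k_unique b.2 (F := g.1) (F' := g'.1) hg hg' h5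
    have h7 : g.2 = g'.2 := h6
    have h8 : g = g' := Prod.ext h1 h7
    rw [h8, inv_mul_cancel]
    exact Subgroup.one_mem _
  · intro b
    refine ⟨b, 1, Arc.bot.one b, ?_⟩
    rw [inv_one]
    exact Arc.bot.one b

end Ang
end C715
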