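import Pool.Agent.Work.MP_c71557_gt.C.Defs
import Pool.Agent.Work.MP_c71557_gt.H.QA
import Pool.Agent.Work.MP_c71557_gt.H.ActDir
import Pool.Agent.Work.MP_c71557_gt.H.Equiv

set_option autoImplicit false
set_option linter.unusedVariables false

/-!
# MP_c71557_gt, module C/BotOv: categories over the top object for `A.bot` and `A` (S-M)

* `hiso_botTopQ`: Quillen A (`quillenA_over`, H/QA): `botTopQ` is `idFun`, and every category over
  the object of `sg Q` is acyclic by `acy_over_top` (H/ActDir) with `a0 = none`, `g0 = 1`: given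
  `g : a → ()`, i.e. `g ∈ Q`, take `k = g`; thinness: `k⁻¹ k' ∈ ⊥`.
* `hiso_ovBot`: the functor is an equivalence of categories (`hiso_of_equiv`, H/Equiv).  Objects of
  `OvTop A.bot Q` are pairs `(a, q)`, `q ∈ Q`; objects of `OvTop A Q` are pairs `(a, [q])`,
  `[q] ∈ Q / N a`.  In both categories there is at most one arrow between two objects and there is
  one iff `q'⁻¹ q` is admissible `a → b` (for `[q]`: `q' k ∈ q N(a)` gives `k ∈ q'⁻¹ q N(a)`, and
  `N a` consists of admissible elements; the class of `k` modulo `N a` is determined).  So the functor is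
  fully faithful, and it is surjective on objects (`hom_surj`).
-/

noncomputable section

namespace C715

open CategoryTheory

namespace ActCat

variable {Γ : Type} [Group Γ]

theorem hiso_botTopQ (A : ActCat Γ) (Q : Subgroup Γ) (hQ : ∀ {a b g}, A.Adm a g b → g ∈ Q) :
    HIso (A.botTopQ Q hQ) := by
  refine quillenA_over _ fun b => ?_
  obtain ⟨⟨⟩⟩ := b
  refine acy_over_top (A := A.bot.top Q (botHQ hQ)) (A' := sg Q) (fun _ => ())
    (fun {x y g} h => match x, y, h with
      | some _, some _, h => hQ h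
      | some _, none, h => h
      | none, none, h => h)
    (fun {x n} h => match x, h with
      | some _, h => h
      | none, h => h) () none 1 Q.one_mem ?_ ?_
  · intro a g hg
    refine ⟨g, ?_, ?_⟩
    · match a with
      | some _ => exact hg
      | none => exact hg
    · change (1 * g)⁻¹ * g ∈ (⊥ : Subgroup Γ)
      rw [one_mul, inv_mul_cancel]
      exact Subgroup.one_mem _
  · intro a k k' hk hk' h
    match a with
    | some _ => exact h
    | none => exact h

/-- objects of `OvTop` -/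
private theorem ov_obj {A : ActCat Γ} {Q : Subgroup Γ} {hQ : ∀ {a b g}, A.Adm a g b → g ∈ Q}
    (X : OvTop A Q hQ) : ∃ (a : A.Ob) (g : Γ) (hg : g ∈ Q),
      X = CostructuredArrow.mk (S := A.topIncl Q hQ) (Y := (⟨a⟩ : A.Obj))
        ((A.top Q hQ).hom (a := some a) (b := none) g hg) := by
  obtain ⟨⟨a⟩, ⟨⟨⟩⟩, h⟩ := X
  obtain ⟨g, hg, rfl⟩ := hom_surj (A := A.top Q hQ) h
  exact ⟨a, g, hg, rfl⟩

/-- arrows of `OvTop` -/
private theorem ov_hom {A : ActCat Γ} {Q : Subgroup Γ} {hQ : ∀ {a b g}, A.Adm a g b → g ∈ Q}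
    {a a' : A.Ob} {g g' : Γ} {hg : g ∈ Q} {hg' : g' ∈ Q}
    (u : CostructuredArrow.mk (S := A.topIncl Q hQ) (Y := (⟨a⟩ : A.Obj))
        ((A.top Q hQ).hom (a := some a) (b := none) g hg) ⟶
      CostructuredArrow.mk (S := A.topIncl Q hQ) (Y := (⟨a'⟩ : A.Obj))
        ((A.top Q hQ).hom (a := some a') (b := none) g' hg')) :
    ∃ (k : Γ) (hk : A.Adm a k a'), u.left = A.hom k hk ∧ (g' * k)⁻¹ * g ∈ A.N a := by
  obtain ⟨k, hk, e⟩ := hom_surj (A := A) (x := ⟨a⟩) (y := ⟨a'⟩) u.left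
  refine ⟨k, hk, e, ?_⟩
  have h1 := CostructuredArrow.w u
  rw [e] at h1
  have h2 : (A.top Q hQ).hom (a := some a) (b := none) (g' * k) (Q.mul_mem hg' (hQ hk)) =
      (A.top Q hQ).hom (a := some a) (b := none) g hg := h1
  exact (hom_eq (A := A.top Q hQ)).1 h2

/-- constructing arrows of `OvTop` -/
private theorem ov_mk {A : ActCat Γ} {Q : Subgroup Γ} {hQ : ∀ {a b g}, A.Adm a g b → g ∈ Q}
    {a a' : A.Ob} {g g' : Γ} (hg : g ∈ Q) (hg' : g' ∈ Q) (k : Γ) (hk : A.Adm a k a')
    (h : (g' * k)⁻¹ * g ∈ A.N a) :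
    ∃ u : (CostructuredArrow.mk (S := A.topIncl Q hQ) (Y := (⟨a⟩ : A.Obj))
        ((A.top Q hQ).hom (a := some a) (b := none) g hg) ⟶
      CostructuredArrow.mk (S := A.topIncl Q hQ) (Y := (⟨a'⟩ : A.Obj))
        ((A.top Q hQ).hom (a := some a') (b := none) g' hg')), u.left = A.hom k hk := by
  refine ⟨CostructuredArrow.homMk (A.hom k hk) ?_, rfl⟩
  change (A.top Q hQ).hom (a := some a) (b := none) (g' * k) (Q.mul_mem hg' (hQ hk)) =
    (A.top Q hQ).hom (a := some a) (b := none) g hg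
  exact (hom_eq (A := A.top Q hQ)).2 h

/-- `OvTop` is thin -/
private theorem ov_thin {A : ActCat Γ} {Q : Subgroup Γ} {hQ : ∀ {a b g}, A.Adm a g b → g ∈ Q}
    {X Y : OvTop A Q hQ} (u v : X ⟶ Y) : u = v := by
  obtain ⟨a, g, hg, rfl⟩ := ov_obj X
  obtain ⟨a', g', hg', rfl⟩ := ov_obj Y
  obtain ⟨k, hk, e, h1⟩ := ov_hom u
  obtain ⟨k', hk', e', h2⟩ := ov_hom v
  refine CostructuredArrow.hom_ext _ _ ?_
  rw [e, e']
  refine hom_eq.2 ?_
  have h3 := (A.N a).mul_mem h1 ((A.N a).inv_mem h2)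
  have h4 : (g' * k)⁻¹ * g * ((g' * k')⁻¹ * g)⁻¹ = k⁻¹ * k' := by group
  rwa [h4] at h3

theorem hiso_ovBot (A : ActCat Γ) (Q : Subgroup Γ) (hQ : ∀ {a b g}, A.Adm a g b → g ∈ Q) :
    HIso (ovTopMap (A := A.bot) (A' := A) (botHQ hQ) hQ le_rfl (fun a => a) (fun h => h)
      (fun h => bot_le_N h)) := by
  have hF : (ovTopMap (A := A.bot) (A' := A) (botHQ hQ) hQ le_rfl (fun a => a) (fun h => h)
      (fun h => bot_le_N h)).IsEquivalence :=
    { faithful := ⟨fun {X Y u v} _ => ov_thin u v⟩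
      full := ⟨fun {X Y} w => by
        obtain ⟨a, g, hg, rfl⟩ := ov_obj X
        obtain ⟨a', g', hg', rfl⟩ := ov_obj Y
        obtain ⟨k, hk, e, h1⟩ := ov_hom (A := A) (hQ := hQ) (a := a) (a' := a') (g := g)
          (g' := g') (hg := hg) (hg' := hg') w
        have h2 : A.Adm a (g'⁻¹ * g) a' := by
          have h3 := A.mul (A.nAdm h1) hk
          have h4 : k * ((g' * k)⁻¹ * g) = g'⁻¹ * g := by group
          rwa [h4] at h3
        obtain ⟨u, -⟩ := ov_mk (A := A.bot) (hQ := botHQ hQ) (a := a) (a' := a') hg hg'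
          (g'⁻¹ * g) h2 (by
            have h5 : (g' * (g'⁻¹ * g))⁻¹ * g = 1 := by group
            rw [h5]
            exact Subgroup.one_mem _)
        exact ⟨u, ov_thin _ _⟩⟩
      essSurj := ⟨fun Y => by
        obtain ⟨a, g, hg, rfl⟩ := ov_obj Y
        exact ⟨CostructuredArrow.mk (S := A.bot.topIncl Q (botHQ hQ)) (Y := (⟨a⟩ : A.bot.Obj))
          ((A.bot.top Q (botHQ hQ)).hom (a := some a) (b := none) g hg), ⟨Iso.refl _⟩⟩⟩ }
  exact hiso_of_equiv _

end ActCat
end C715
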