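import Pool.Agent.Work.MP_c71557_gt.A.DefsC
import Pool.Agent.Work.MP_c71557_gt.H.RelTop

set_option autoImplicit false
set_option linter.unusedVariables false

/-!
# MP_c71557_gt, block C (cone side): definitions

`A.bot`: the same admissible elements, trivial groups `N`.  `Arc`: short cells, arrows = elements of
`Ft` mapping the cell `a` into the cell `b` modulo `2π`, modulo germs of the identity near `a`;
`KK = Arc.top ⊤` (the plane is the top object).  `XA`: short compact intervals and short open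
intervals, elements of `Ft` modulo `2π`, modulo the identity in a neighbourhood; `Op`: open intervals
only.
-/

noncomputable section

namespace C715

open CategoryTheory

namespace ActCat

variable {Γ : Type} [Group Γ]

/-- the same admissible elements, trivial groups `N` -/
def bot (A : ActCat Γ) : ActCat Γ where
  Ob := A.Ob
  Adm := A.Adm
  N _ := ⊥
  one := A.one
  mul := A.mul
  nAdm {a n} h := by
    rw [Subgroup.mem_bot] at h
    subst h
    exact A.one a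
  conj {a b g n} h hn := by
    rw [Subgroup.mem_bot] at hn ⊢
    subst hn
    group

theorem mem_bot' {A : ActCat Γ} {a : A.bot.Ob} {n : Γ} : n ∈ A.bot.N a ↔ n = 1 :=
  Subgroup.mem_bot

theorem bot_le_N {A : ActCat Γ} {a : A.bot.Ob} {n : Γ} (h : n ∈ A.bot.N a) :
    n ∈ A.N (a : A.Ob) := by
  rw [mem_bot'] at h
  subst h
  exact Subgroup.one_mem _

/-- `A.bot → A` -/
def botPr (A : ActCat Γ) : A.bot.Obj ⥤ A.Obj :=
  idFun (A := A.bot) (A' := A) (fun a => a) (fun h => h) (fun h => bot_le_N h)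

/-- `A.bot → Q` -/
def botQ (A : ActCat Γ) (Q : Subgroup Γ) (hQ : ∀ {a b g}, A.Adm a g b → g ∈ Q) :
    A.bot.Obj ⥤ (sg Q).Obj :=
  idFun (A := A.bot) (A' := sg Q) (fun _ => ()) (fun h => hQ h) (fun h => h)

theorem botHQ {A : ActCat Γ} {Q : Subgroup Γ} (hQ : ∀ {a b g}, A.Adm a g b → g ∈ Q)
    {a b : A.bot.Ob} {g : Γ} (h : A.bot.Adm a g b) : g ∈ Q := hQ h

/-- `A.bot.top Q → A.top Q` -/
def botTop (A : ActCat Γ) (Q : Subgroup Γ) (hQ : ∀ {a b g}, A.Adm a g b → g ∈ Q) :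
    (A.bot.top Q (botHQ hQ)).Obj ⥤ (A.top Q hQ).Obj :=
  topMap (A := A.bot) (A' := A) (botHQ hQ) hQ le_rfl (fun a => a) (fun h => h)
    (fun h => bot_le_N h)

/-- `A.bot.top Q → Q` -/
def botTopQ (A : ActCat Γ) (Q : Subgroup Γ) (hQ : ∀ {a b g}, A.Adm a g b → g ∈ Q) :
    (A.bot.top Q (botHQ hQ)).Obj ⥤ (sg Q).Obj :=
  idFun (A := A.bot.top Q (botHQ hQ)) (A' := sg Q) (fun _ => ())
    (fun {x y g} h => match x, y, h with
      | some _, some _, h => hQ h
      | some _, none, h => h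
      | none, none, h => h)
    (fun {x n} h => match x, h with
      | some _, h => h
      | none, h => h)

end ActCat

namespace Ang

open XX ActCat

/-- short cells, elements of `Ft` mapping `a` into `b` modulo `2π`, germs near `a` -/
def Arc : ActCat ↥Ft where
  Ob := {a : Cell // ShC a}
  Adm a F b := ∃ k : ℤ, Into a.1 ((F : XX) * tau ^ k) b.1
  N a := (nb a.1.lo a.1.hi).comap Ft.subtype
  one a := ⟨0, by
    rw [zpow_zero, mul_one]
    exact Into.one a.1⟩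
  mul {a b c g h} hg hh := by
    obtain ⟨k, hk⟩ := hg
    obtain ⟨l, hl⟩ := hh
    refine ⟨k + l, ?_⟩
    have e : ((h * g : ↥Ft) : XX) * tau ^ (k + l) = ((h : XX) * tau ^ l) * ((g : XX) * tau ^ k) := by
      change (h : XX) * (g : XX) * tau ^ (k + l) = _
      rw [add_comm k l, zpow_add, mul_assoc, mul_assoc, ← mul_assoc (g : XX),
        ← tau_zpow_comm g.2 l, mul_assoc]
    rw [e]
    exact hk.mul hl
  nAdm {a n} h := ⟨0, by
    rw [zpow_zero, mul_one]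
    exact Into.of_nb h⟩
  conj {a b g n} h hn := by
    obtain ⟨k, hk⟩ := h
    have h1 : ((g : XX) * tau ^ k)⁻¹ * (n : XX) * ((g : XX) * tau ^ k) ∈ nb a.1.lo a.1.hi :=
      hk.conj hn
    have e : ((g : XX) * tau ^ k)⁻¹ * (n : XX) * ((g : XX) * tau ^ k) =
        (g : XX)⁻¹ * (n : XX) * (g : XX) := by
      have h2 : (n : XX) * (g : XX) * tau ^ k = tau ^ k * ((n : XX) * (g : XX)) :=
        (tau_zpow_comm (Ft.mul_mem n.2 g.2) k).symm
      have h3 : (g : XX)⁻¹ * tau ^ k = tau ^ k * (g : XX)⁻¹ :=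
        (tau_zpow_comm (Ft.inv_mem g.2) k).symm
      calc ((g : XX) * tau ^ k)⁻¹ * (n : XX) * ((g : XX) * tau ^ k)
          = (tau ^ k)⁻¹ * (g : XX)⁻¹ * ((n : XX) * (g : XX) * tau ^ k) := by group
        _ = (tau ^ k)⁻¹ * (g : XX)⁻¹ * (tau ^ k * ((n : XX) * (g : XX))) := by rw [h2]
        _ = (tau ^ k)⁻¹ * ((g : XX)⁻¹ * tau ^ k) * ((n : XX) * (g : XX)) := by group
        _ = (tau ^ k)⁻¹ * (tau ^ k * (g : XX)⁻¹) * ((n : XX) * (g : XX)) := by rw [h3]
        _ = (g : XX)⁻¹ * (n : XX) * (g : XX) := by group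
    rw [e] at h1
    exact h1

theorem hArc {a b : Arc.Ob} {g : ↥Ft} (_ : Arc.Adm a g b) : g ∈ (⊤ : Subgroup ↥Ft) := trivial

/-- arcs and the plane -/
def KK : ActCat ↥Ft := Arc.top ⊤ hArc

/-- short cells, elements of `Ft × ℤ`, germs near `a` -/
def Acg : ActCat (↥Ft × Multiplicative ℤ) where
  Ob := {a : Cell // ShC a}
  Adm a g b := Into a.1 (mZ g).1 b.1
  N a := ((nb a.1.lo a.1.hi).comap Ft.subtype).prod ⊥
  one a := by
    rw [map_one]
    exact Into.one a.1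
  mul h h' := by
    rw [map_mul]
    exact h.mul h'
  nAdm {a n} h := by
    have h1 : (n.1 : XX) ∈ nb a.1.lo a.1.hi := h.1
    have h2 : n.2 = 1 := h.2
    have h3 : (mZ n).1 = (n.1 : XX) := by
      change (n.1 : XX) * tau ^ (Multiplicative.toAdd n.2) = _
      rw [h2]
      change (n.1 : XX) * tau ^ (0 : ℤ) = _
      rw [zpow_zero, mul_one]
    rw [h3]
    exact Into.of_nb h1
  conj {a b g n} h hn := by
    have h1 : (n.1 : XX) ∈ nb b.1.lo b.1.hi := hn.1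
    have h2 : n.2 = 1 := hn.2
    have h3 : (mZ n).1 = (n.1 : XX) := by
      change (n.1 : XX) * tau ^ (Multiplicative.toAdd n.2) = _
      rw [h2]
      change (n.1 : XX) * tau ^ (0 : ℤ) = _
      rw [zpow_zero, mul_one]
    have h4 : (g⁻¹ * n * g).2 = 1 := by
      change g.2⁻¹ * n.2 * g.2 = 1
      rw [h2, mul_one, inv_mul_cancel]
    have h5 : (mZ (g⁻¹ * n * g)).1 = ((g⁻¹ * n * g).1 : XX) := by
      change ((g⁻¹ * n * g).1 : XX) * tau ^ (Multiplicative.toAdd (g⁻¹ * n * g).2) = _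
      rw [h4]
      change ((g⁻¹ * n * g).1 : XX) * tau ^ (0 : ℤ) = _
      rw [zpow_zero, mul_one]
    refine ⟨?_, h4⟩
    have h6 : (mZ g).1⁻¹ * (n.1 : XX) * (mZ g).1 ∈ nb a.1.lo a.1.hi := Into.conj h h1
    have h7 : (mZ (g⁻¹ * n * g)).1 = (mZ g).1⁻¹ * (mZ n).1 * (mZ g).1 := by
      rw [map_mul, map_mul, map_inv]
      rfl
    change ((g⁻¹ * n * g).1 : XX) ∈ nb a.1.lo a.1.hi
    rw [← h5, h7, h3]
    exact h6

/-- `Acs → Acg` -/
def AcsAcg : Acs.Obj ⥤ Acg.Obj :=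
  idFun (A := Acs) (A' := Acg) (fun a => a) (fun h => h) (fun {a n} h => by
    have h' : n ∈ (⊥ : Subgroup (↥Ft × Multiplicative ℤ)) := h
    rw [Subgroup.mem_bot] at h'
    subst h'
    exact Subgroup.one_mem _)

/-- `Acg → Bcs` -/
def AcgBcs : Acg.Obj ⥤ Bcs.Obj :=
  functor (A := Acg) (A' := Bcs) (fun a => a) mZ (fun h => h) (fun {a n} h => by
    have h1 : (n.1 : XX) ∈ nb a.1.lo a.1.hi := h.1
    have h2 : n.2 = 1 := h.2
    have h3 : (mZ n).1 = (n.1 : XX) := by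
      change (n.1 : XX) * tau ^ (Multiplicative.toAdd n.2) = _
      rw [h2]
      change (n.1 : XX) * tau ^ (0 : ℤ) = _
      rw [zpow_zero, mul_one]
    refine ⟨?_, h2⟩
    change (mZ n).1 ∈ nb a.1.lo a.1.hi
    rw [h3]
    exact h1)

/-- `Acg → Arc` -/
def AcgArc : Acg.Obj ⥤ Arc.Obj :=
  functor (A := Acg) (A' := Arc) (fun a => a) (MonoidHom.fst ↥Ft (Multiplicative ℤ))
    (fun {a b g} h => ⟨Multiplicative.toAdd g.2, h⟩) (fun h => h.1)

/-- `Acs → Arc.bot` -/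
def AcsArc : Acs.Obj ⥤ Arc.bot.Obj :=
  functor (A := Acs) (A' := Arc.bot) (fun a => a) (MonoidHom.fst ↥Ft (Multiplicative ℤ))
    (fun {a b g} h => ⟨Multiplicative.toAdd g.2, h⟩) (fun {a n} h => by
    have h' : n ∈ (⊥ : Subgroup (↥Ft × Multiplicative ℤ)) := h
    rw [Subgroup.mem_bot] at h'
    subst h'
    exact Subgroup.one_mem _)

/-! ## compact and open intervals -/

/-- `F (s + 2πk) = F s + 2πk` -/
theorem Ft_zmul (F : ↥Ft) (k : ℤ) (s : ℝ) :
    (F : XX).ev (s + k * (2 * Real.pi)) = ((F : XX).f s + k * (2 * Real.pi), (F : XX).r s) := by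
  have h1 : ∀ (G : XX), G ∈ Ft → ∀ (n : ℕ) (s : ℝ),
      G.ev (s + n * (2 * Real.pi)) = (G.f s + n * (2 * Real.pi), G.r s) := by
    intro G hG n
    induction n with
    | zero =>
      intro s
      rw [Nat.cast_zero, zero_mul, add_zero, add_zero, ev_def]
    | succ n ih =>
      intro s
      have e : s + ((n + 1 : ℕ) : ℝ) * (2 * Real.pi) = (s + n * (2 * Real.pi)) + 2 * Real.pi := by
        push_cast
        ring
      have h2 := ih s
      have h3 : G.f (s + n * (2 * Real.pi)) = G.f s + n * (2 * Real.pi) := congrArg Prod.fst h2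
      have h4 : G.r (s + n * (2 * Real.pi)) = G.r s := congrArg Prod.snd h2
      rw [e, mem_Ft.1 hG, h3, h4]
      refine Prod.ext ?_ rfl
      push_cast
      ring
  obtain ⟨n, rfl | rfl⟩ := k.eq_nat_or_neg
  · exact_mod_cast h1 F F.2 n s
  · have h2 := h1 F F.2 n (s + ((-(n : ℤ) : ℤ) : ℝ) * (2 * Real.pi))
    have e : s + ((-(n : ℤ) : ℤ) : ℝ) * (2 * Real.pi) + n * (2 * Real.pi) = s := by
      push_cast
      ring
    rw [e] at h2
    obtain ⟨h3, h4⟩ := Prod.mk_inj.1 (show ((F : XX).f s, (F : XX).r s) = _ from h2)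
    refine Prod.ext ?_ ?_
    · change (F : XX).f _ = (F : XX).f s + _
      rw [h3]
      push_cast
      ring
    · exact h4.symm

/-- short compact intervals and short open intervals -/
@[ext] structure SA where
  S : Set ℝ
  h : (∃ a b : ℝ, a ≤ b ∧ b < a + 2 * Real.pi ∧ S = Set.Icc a b) ∨
    (∃ a b : ℝ, a < b ∧ b ≤ a + Real.pi ∧ S = Set.Ioo a b)

/-- the identity in a neighbourhood of `S` -/
def nbS (S : Set ℝ) : Subgroup ↥Ft where
  carrier := {F | ∃ U : Set ℝ, IsOpen U ∧ S ⊆ U ∧ ∀ s ∈ U, (F : XX).ev s = (s, 1)}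
  one_mem' := ⟨Set.univ, isOpen_univ, Set.subset_univ _, fun _ _ => rfl⟩
  mul_mem' := by
    rintro F G ⟨U, hU, hS, h⟩ ⟨U', hU', hS', h'⟩
    refine ⟨U ∩ U', hU.inter hU', Set.subset_inter hS hS', fun s hs => ?_⟩
    change ((F : XX) * (G : XX)).ev s = _
    rw [mul_ev_right (h' s hs.2)]
    exact h s hs.1
  inv_mem' := by
    rintro F ⟨U, hU, hS, h⟩
    refine ⟨U, hU, hS, fun s hs => ?_⟩
    change ((F : XX)⁻¹).ev s = _
    rw [inv_ev (h s hs), inv_one]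

theorem mem_nbS {S : Set ℝ} {F : ↥Ft} :
    F ∈ nbS S ↔ ∃ U : Set ℝ, IsOpen U ∧ S ⊆ U ∧ ∀ s ∈ U, (F : XX).ev s = (s, 1) := Iff.rfl

/-- `F` maps `S` into `T` modulo `2π` -/
def MapsM (S : Set ℝ) (F : ↥Ft) (T : Set ℝ) : Prop :=
  ∃ k : ℤ, ∀ s ∈ S, (F : XX).f s + k * (2 * Real.pi) ∈ T

theorem MapsM.one (S : Set ℝ) : MapsM S 1 S := ⟨0, fun s hs => by
  rw [Int.cast_zero, zero_mul, add_zero]
  exact hs⟩

theorem MapsM.mul {S T R : Set ℝ} {F G : ↥Ft} (h : MapsM S F T) (h' : MapsM T G R) :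
    MapsM S (G * F) R := by
  obtain ⟨k, h⟩ := h
  obtain ⟨l, h'⟩ := h'
  refine ⟨k + l, fun s hs => ?_⟩
  have h1 := h' _ (h s hs)
  have h2 : (G : XX).f ((F : XX).f s + k * (2 * Real.pi)) =
      (G : XX).f ((F : XX).f s) + k * (2 * Real.pi) := congrArg Prod.fst (Ft_zmul G k _)
  rw [h2] at h1
  change (G : XX).f ((F : XX).f s) + ((k + l : ℤ) : ℝ) * (2 * Real.pi) ∈ R
  have e : (G : XX).f ((F : XX).f s) + ((k + l : ℤ) : ℝ) * (2 * Real.pi) =
      (G : XX).f ((F : XX).f s) + k * (2 * Real.pi) + l * (2 * Real.pi) := by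
    push_cast
    ring
  rw [e]
  exact h1

theorem MapsM.conj {S T : Set ℝ} {F n : ↥Ft} (h : MapsM S F T) (hn : n ∈ nbS T) :
    F⁻¹ * n * F ∈ nbS S := by
  obtain ⟨k, h⟩ := h
  obtain ⟨U, hU, hT, hn⟩ := hn
  refine ⟨(fun s => (F : XX).f s + k * (2 * Real.pi)) ⁻¹' U,
    hU.preimage ((F : XX).continuous_f.add continuous_const), fun s hs => hT (h s hs),
    fun s hs => ?_⟩
  change ((F : XX)⁻¹ * (n : XX) * (F : XX)).ev s = (s, 1)
  rw [mul_assoc, inv_mul_ev]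
  symm
  refine mul_ev_left ?_
  have h1 := hn _ hs
  rw [Ft_zmul] at h1
  obtain ⟨h2, h3⟩ := Prod.mk_inj.1 h1
  exact Prod.ext (add_right_cancel h2) h3

/-- short compact intervals and short open intervals, elements of `Ft` mapping one into the other
modulo `2π`, modulo the identity in a neighbourhood -/
def XA : ActCat ↥Ft where
  Ob := SA
  Adm a F b := MapsM a.S F b.S
  N a := nbS a.S
  one a := MapsM.one a.S
  mul h h' := h.mul h'
  nAdm {a n} h := by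
    obtain ⟨U, hU, hS, h⟩ := h
    refine ⟨0, fun s hs => ?_⟩
    have h1 : (n : XX).f s = s := congrArg Prod.fst (h s (hS hs))
    rw [h1, Int.cast_zero, zero_mul, add_zero]
    exact hs
  conj h hn := h.conj hn

theorem hXA {a b : XA.Ob} {g : ↥Ft} (_ : XA.Adm a g b) : g ∈ (⊤ : Subgroup ↥Ft) := trivial

/-- short open intervals `(a.1, a.2)` -/
def Op : ActCat ↥Ft where
  Ob := {p : ℝ × ℝ // p.1 < p.2 ∧ p.2 ≤ p.1 + Real.pi}
  Adm a F b := MapsM (Set.Ioo a.1.1 a.1.2) F (Set.Ioo b.1.1 b.1.2)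
  N a := nbS (Set.Ioo a.1.1 a.1.2)
  one a := MapsM.one _
  mul h h' := h.mul h'
  nAdm {a n} h := by
    obtain ⟨U, hU, hS, h⟩ := h
    refine ⟨0, fun s hs => ?_⟩
    have h1 : (n : XX).f s = s := congrArg Prod.fst (h s (hS hs))
    rw [h1, Int.cast_zero, zero_mul, add_zero]
    exact hs
  conj h hn := h.conj hn

theorem hOp {a b : Op.Ob} {g : ↥Ft} (_ : Op.Adm a g b) : g ∈ (⊤ : Subgroup ↥Ft) := trivial

/-- `a ↦ [a.lo, a.hi]` -/
def clO (a : Arc.Ob) : XA.Ob := ⟨Set.Icc a.1.lo a.1.hi, Or.inl ⟨a.1.lo, a.1.hi, a.1.le, a.2, rfl⟩⟩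

/-- `p ↦ (p.1, p.2)` -/
def opO (a : Op.Ob) : XA.Ob := ⟨Set.Ioo a.1.1 a.1.2, Or.inr ⟨a.1.1, a.1.2, a.2.1, a.2.2, rfl⟩⟩

theorem tau_zpow_f (k : ℤ) (s : ℝ) : (tau ^ k : XX).f s = s + k * (2 * Real.pi) := by
  have h : ∀ (n : ℕ) (s : ℝ), (tau ^ n : XX).f s = s + n * (2 * Real.pi) := by
    intro n
    induction n with
    | zero =>
      intro s
      rw [pow_zero, one_f, Nat.cast_zero, zero_mul, add_zero]
    | succ n ih =>
      intro s
      rw [pow_succ, mul_f, ih]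
      change (s + 2 * Real.pi) + n * (2 * Real.pi) = _
      push_cast
      ring
  obtain ⟨n, rfl | rfl⟩ := k.eq_nat_or_neg
  · rw [zpow_natCast, h]
    push_cast
    rfl
  · have h1 : (tau ^ (-(n : ℤ)) : XX) = (tau ^ n)⁻¹ := by
      rw [zpow_neg, zpow_natCast]
    rw [h1]
    apply (tau ^ n : XX).f.injective
    rw [f_inv_f, h]
    push_cast
    ring

/-- `F tau^k` -/
theorem Ft_tau_f (F : ↥Ft) (k : ℤ) (s : ℝ) :
    ((F : XX) * tau ^ k).f s = (F : XX).f s + k * (2 * Real.pi) := by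
  rw [← tau_zpow_comm F.2, mul_f, tau_zpow_f]

theorem clO_adm {a b : Arc.Ob} {F : ↥Ft} (h : Arc.Adm a F b) : XA.Adm (clO a) F (clO b) := by
  obtain ⟨k, h1, h2⟩ := h
  refine ⟨k, fun s hs => ?_⟩
  rw [← Ft_tau_f]
  exact ⟨h1.trans (OrderIso.monotone _ hs.1), (OrderIso.monotone _ hs.2).trans h2⟩

/-- conversely -/
theorem clO_adm' {a b : Arc.Ob} {F : ↥Ft} (h : XA.Adm (clO a) F (clO b)) : Arc.Adm a F b := by
  obtain ⟨k, h⟩ := h
  have h1 : (F : XX).f a.1.lo + k * (2 * Real.pi) ∈ Set.Icc b.1.lo b.1.hi :=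
    h a.1.lo ⟨le_rfl, a.1.le⟩
  have h2 : (F : XX).f a.1.hi + k * (2 * Real.pi) ∈ Set.Icc b.1.lo b.1.hi :=
    h a.1.hi ⟨a.1.le, le_rfl⟩
  rw [← Ft_tau_f] at h1 h2
  exact ⟨k, h1.1, h2.2⟩

theorem clO_N {a : Arc.Ob} {n : ↥Ft} : n ∈ XA.N (clO a) ↔ n ∈ Arc.N a := by
  constructor
  · rintro ⟨U, hU, hS, h⟩
    have hS' : Set.Icc a.1.lo a.1.hi ⊆ U := hS
    obtain ⟨e, he, h1⟩ := (isCompact_Icc (a := a.1.lo) (b := a.1.hi)).exists_thickening_subset_open
      hU hS'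
    refine ⟨e / 2, half_pos he, fun s h2 h3 => h s (h1 ?_)⟩
    rw [Metric.mem_thickening_iff]
    have h4 := a.1.le
    rcases le_total s a.1.lo with h5 | h5
    · refine ⟨a.1.lo, ⟨le_rfl, h4⟩, ?_⟩
      rw [Real.dist_eq, abs_of_nonpos (by linarith)]
      linarith
    · rcases le_total s a.1.hi with h6 | h6
      · refine ⟨s, ⟨h5, h6⟩, ?_⟩
        rw [dist_self]
        exact he
      · refine ⟨a.1.hi, ⟨h4, le_rfl⟩, ?_⟩
        rw [Real.dist_eq, abs_of_nonneg (by linarith)]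
        linarith
  · rintro ⟨e, he, h⟩
    refine ⟨Set.Ioo (a.1.lo - e) (a.1.hi + e), isOpen_Ioo, fun s hs => ?_, fun s hs =>
      h s hs.1.le hs.2.le⟩
    have h1 : a.1.lo ≤ s := hs.1
    have h2 : s ≤ a.1.hi := hs.2
    exact ⟨by linarith, by linarith⟩

/-- `KK → XA ∪ {plane}` -/
def clX : KK.Obj ⥤ (XA.top ⊤ hXA).Obj :=
  topMap (A := Arc) (A' := XA) hArc hXA le_rfl clO (fun h => clO_adm h) (fun h => clO_N.2 h)

/-- `Op ∪ {plane} → XA ∪ {plane}` -/
def opX : (Op.top ⊤ hOp).Obj ⥤ (XA.top ⊤ hXA).Obj :=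
  topMap (A := Op) (A' := XA) hOp hXA le_rfl opO (fun h => h) (fun h => h)

end Ang
end C715
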