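import Pool.Agent.Work.MP_c71557_gt.C.Defs
import Pool.Agent.Work.MP_c71557_gt.K.Defs

set_option autoImplicit false
set_option linter.unusedVariables false

/-!
# MP_c71557_gt, block C (cone side): open convex cones

`sct a b`: the open sector of the directions in `(a, b)`.  `Wc`: open convex cones (with the plane),
homogeneous framed elements, modulo those which are the identity with trivial framing on the cone.
`StW : Str gCnf → Wc` forgets the lines.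
-/

noncomputable section

namespace C715

open Ang CategoryTheory
open scoped Topology

/-- the open sector of the directions in `(a, b)` -/
def sct (a b : ℝ) : Set P2 := {x | ∃ t θ : ℝ, 0 < t ∧ a < θ ∧ θ < b ∧ x = t • dir θ}

/-- open convex cones -/
abbrev CU : Set (Set P2) := {U | IsOpen U ∧ Convex ℝ U ∧ U.Nonempty ∧
    (∀ (t : ℝ) (x : P2), 0 < t → x ∈ U → t • x ∈ U)}

theorem CU_univ : (Set.univ : Set P2) ∈ CU :=
  ⟨isOpen_univ, convex_univ, Set.univ_nonempty, fun _ _ _ _ => trivial⟩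

/-- open convex cones, framed homogeneous elements -/
def Wc : ActCat FGr where
  Ob := {U : Set P2 // U ∈ CU}
  Adm U a V := a ∈ Cnf ∧ ∀ x ∈ U.1, a.g x ∈ V.1
  N U :=
    { carrier := {a | a ∈ Cnf ∧ ∀ x ∈ U.1, a.g x = x ∧ a.ph x = 1}
      mul_mem' := by
        rintro a b ⟨ha, h1⟩ ⟨hb, h2⟩
        refine ⟨Cnf.mul_mem ha hb, fun x hx => ⟨?_, ?_⟩⟩
        · change a.g (b.g x) = x
          rw [(h2 x hx).1, (h1 x hx).1]
        · rw [FGr.mul_ph, (h2 x hx).1, (h2 x hx).2, (h1 x hx).2, one_mul]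
      one_mem' := ⟨Cnf.one_mem, fun _ _ => ⟨rfl, rfl⟩⟩
      inv_mem' := by
        rintro a ⟨ha, h1⟩
        have h2 : ∀ x ∈ U.1, a.g⁻¹ x = x := fun x hx => by
          rw [Equiv.Perm.inv_eq_iff_eq, (h1 x hx).1]
        refine ⟨Cnf.inv_mem ha, fun x hx => ⟨h2 x hx, ?_⟩⟩
        rw [FGr.inv_ph, h2 x hx, (h1 x hx).2, inv_one] }
  one U := ⟨Cnf.one_mem, fun _ hx => hx⟩
  mul := by
    rintro U V W g h ⟨hg, h1⟩ ⟨hh, h2⟩
    exact ⟨Cnf.mul_mem hh hg, fun x hx => h2 _ (h1 x hx)⟩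
  nAdm := by
    rintro U n ⟨hn, h1⟩
    exact ⟨hn, fun x hx => by rw [(h1 x hx).1]; exact hx⟩
  conj := by
    rintro U V g n ⟨hg, h1⟩ ⟨hn, h2⟩
    refine ⟨Cnf.mul_mem (Cnf.mul_mem (Cnf.inv_mem hg) hn) hg, fun x hx => ?_⟩
    have h3 := h2 (g.g x) (h1 x hx)
    have h4 : g.g⁻¹ (g.g x) = x := g.g.symm_apply_apply x
    refine ⟨?_, ?_⟩
    · change g.g⁻¹ (n.g (g.g x)) = x
      rw [h3.1, h4]
    · rw [FGr.mul_ph, FGr.mul_ph, FGr.inv_ph, h3.1, h3.2, h4, mul_one, inv_mul_cancel]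

theorem mem_WcN {U : Wc.Ob} {a : FGr} :
    a ∈ Wc.N U ↔ a ∈ Cnf ∧ ∀ x ∈ U.1, a.g x = x ∧ a.ph x = 1 := Iff.rfl

/-- forget the lines -/
abbrev oW (p : gCnf.Str.Ob) : Wc.Ob := ⟨p.1.1, p.2.1⟩

/-- `Str gCnf → Wc` -/
def StW : gCnf.Str.Obj ⥤ Wc.Obj :=
  ActCat.idFun (A := gCnf.Str) (A' := Wc) oW (fun h => ⟨h.1, h.2.1⟩) (fun h => h)

/-! ## simple facts -/

theorem zero_notMem_sct (a b : ℝ) : (0 : P2) ∉ sct a b := by
  rintro ⟨t, θ, ht, _, _, h⟩
  exact dir_ne θ ((smul_eq_zero.1 h.symm).resolve_left ht.ne')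

/-- fewer lines in the source -/
theorem CellMap.mono {U : Set P2} {A B : Finset Ln} {g : Equiv.Perm P2} {A' : Finset Ln}
    (h : CellMap U A g A') (hAB : A ⊆ B) : CellMap U B g A' := by
  refine ⟨fun x hx y hy e => h.1 x hx y hy fun l hl => e l (hAB hl), fun x hx => ?_⟩
  obtain ⟨m, n, h1⟩ := h.2 x hx
  exact ⟨m, n, fun y hy => h1 y ⟨hy.1, fun l hl => hy.2 l (hAB hl)⟩⟩

/-- smaller source -/
theorem CellMap.sub {U V : Set P2} {A : Finset Ln} {g : Equiv.Perm P2} {A' : Finset Ln}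
    (h : CellMap U A g A') (hVU : V ⊆ U) : CellMap V A g A' := by
  refine ⟨fun x hx y hy e => h.1 x (hVU hx) y (hVU hy) e, fun x hx => ?_⟩
  obtain ⟨m, n, h1⟩ := h.2 x (hVU hx)
  exact ⟨m, n, fun y hy => h1 y ⟨hVU hy.1, hy.2⟩⟩

end C715
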