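import Pool.Agent.Work.MP_c71557_gt.C.DefsK
import Pool.Agent.Work.MP_c71557_gt.G.Bh
import Pool.Agent.Work.MP_c71557_gt.G.Rt

set_option autoImplicit false
set_option linter.unusedVariables false

/-!
# MP_c71557_gt, module C/HfA: the framed homogeneous element of a germ (M)

`gm_spec : IsGerm gm` (G/GDefs, G/Germ).  For `a ∈ Cnf`: `a.g` is homogeneous, `a.g 0 = 0`
(`Cnf_zero`), and for every `R` there is `b ∈ Gc` with `a.g = b`, `a.ph = gm b` on `‖x‖ ≤ R`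
(K/Defs, `Gf`).
* `Cnf_vec`: with `b` for `R = 1`: `gm b 0 = a.ph 0`, and by `exp` at `0`:
  `b (s • dir θ) = s • vec (a.ph 0) θ` for `0 ≤ s ≤ ε` (`b 0 = 0`); take `ε ≤ 1`, `‖dir θ‖ ≤ 1`
  (`dir_norm_le`), so `a.g (s • dir θ)` has this value for small `s > 0`; homogeneity gives it for all
  `t > 0` (`t • dir θ = (t/s) • (s • dir θ)`); `t = 0`: `Cnf_zero`.
* `Cnf_ext`: `a.g = b.g`: at `0` by `Cnf_zero`; `x ≠ 0` is `t • dir θ`, `t > 0` (`exists_dir`):
  `Cnf_vec`.  `a.ph v = b.ph v`: let `R = ‖v‖ + 1`, `a', b' ∈ Gc` for `a`, `b` and `R`;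
  `c = b'⁻¹ * a'` is the identity on the open ball of radius `R` around `0` (max norm), which is
  convex and contains `0`, `v`; so `gm c v = gm c 0` by `conn` (every point of an open set has a
  neighbourhood in it, `C` = the ball); `gm c x = (gm b' x)⁻¹ * gm a' x` for `x` in the ball
  (`gm_mul`, `gm_inv`, `a' x = b' x`), which is `1` at `0` because `a.ph 0 = b.ph 0`; so
  `gm a' v = gm b' v`.
* `Cnf_ex`: let `h ∈ PLH` from `exists_bh` (G/Bh): `h (t • dir θ) = t • vec F θ`, `t ≥ 0`.  For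
  `n : ℕ` let `b n ∈ Gc` from `real F 0 0 (2 * n)`: `b n 0 = 0`, `gm (b n) 0 = F`,
  `b n (t • dir θ) = t • vec F θ` for `0 ≤ t ≤ 2 n`.  `‖x‖ ≤ n` implies `x = t • dir θ` with
  `0 ≤ t ≤ 2 n` (`exists_dir`, `dir_norm_ge`), so `b n = h` on `‖x‖ ≤ n`.  For `m ≤ n` and `‖x‖ < m`:
  `gm (b m) x = gm (b n) x` by `conn` on the open ball as in `Cnf_ext`.  Put
  `a = (h, fun x => gm (b (Nat.ceil ‖x‖ + 1)) x)`.  For every `R` the element `b n`, `n` large, agrees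
  with `a` on `‖x‖ ≤ R`.  `h` is homogeneous: `x = s • dir θ`, `t • x = (t s) • dir θ`.
-/

noncomputable section

namespace C715

open Ang CategoryTheory
open scoped Topology

theorem Cnf_vec {a : FGr} (ha : a ∈ Cnf) (θ t : ℝ) (ht : 0 ≤ t) :
    a.g (t • dir θ) = t • vec (a.ph 0).1 θ := by
  rcases ht.eq_or_lt with rfl | ht
  · rw [zero_smul, zero_smul]
    exact Cnf_zero ha
  · obtain ⟨b, hb⟩ := ha.1.2 1
    obtain ⟨ε, hε, h1⟩ := gm_spec.exp b 0
    have h2 := hb 0 (by rw [norm_zero]; exact zero_le_one)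
    have hs : 0 < min ε 1 := lt_min hε one_pos
    have h3 : ‖min ε 1 • dir θ‖ ≤ 1 := by
      rw [norm_smul, Real.norm_of_nonneg hs.le]
      have h4 := dir_norm_le θ
      have h5 := min_le_right ε 1
      nlinarith [norm_nonneg (dir θ)]
    have h6 : a.g (min ε 1 • dir θ) = min ε 1 • vec (a.ph 0).1 θ := by
      have h7 := h1 θ _ hs.le (min_le_left _ _)
      rw [zero_add, ← h2.1, Cnf_zero ha, zero_add, ← h2.2] at h7
      rw [(hb _ h3).1]
      exact h7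
    have h8 : t • dir θ = (t / min ε 1) • (min ε 1 • dir θ) := by
      rw [smul_smul, div_mul_cancel₀ _ hs.ne']
    rw [h8, ha.2 _ _ (div_pos ht hs), h6, smul_smul, div_mul_cancel₀ _ hs.ne']

/-- framings of elements which agree on a ball -/
private theorem gm_agree (a b : ↥Gc) (R : ℝ) (h : ∀ x : P2, ‖x‖ < R → a.1 x = b.1 x)
    (h0 : gm a 0 = gm b 0) (v : P2) (hv : ‖v‖ < R) : gm a v = gm b v := by
  have hR : 0 < R := (norm_nonneg v).trans_lt hv
  have key : ∀ x : P2, ‖x‖ < R → gm (b⁻¹ * a) x = (gm b x)⁻¹ * gm a x := by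
    intro x hx
    rw [gm_mul, h x hx, gm_inv]
  have hid : ∀ x : P2, ‖x‖ < R → (b⁻¹ * a).1 x = x := by
    intro x hx
    change b.1⁻¹ (a.1 x) = x
    rw [h x hx]
    exact b.1.symm_apply_apply x
  have h1 : ∀ᶠ x in 𝓝ˢ (Metric.ball (0 : P2) R), (b⁻¹ * a).1 x = x := by
    have h2 : Metric.ball (0 : P2) R ∈ 𝓝ˢ (Metric.ball (0 : P2) R) :=
      Metric.isOpen_ball.mem_nhdsSet_self
    filter_upwards [h2] with x hx
    exact hid x (mem_ball_zero_iff.1 hx)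
  have h3 := gm_spec.conn (b⁻¹ * a) _ (convex_ball (0 : P2) R).isPreconnected h1 v
    (mem_ball_zero_iff.2 hv) 0 (Metric.mem_ball_self hR)
  rw [key v hv, key 0 (by rw [norm_zero]; exact hR), h0, inv_mul_cancel] at h3
  exact (inv_mul_eq_one.1 h3).symm

theorem Cnf_ext {a b : FGr} (ha : a ∈ Cnf) (hb : b ∈ Cnf) (h : a.ph 0 = b.ph 0) : a = b := by
  have hg : ∀ x, a.g x = b.g x := by
    intro x
    by_cases hx : x = 0
    · rw [hx, Cnf_zero ha, Cnf_zero hb]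
    · obtain ⟨t, θ, ht, _, _, rfl⟩ := exists_dir x hx 0
      rw [Cnf_vec ha θ t ht.le, Cnf_vec hb θ t ht.le, h]
  refine FGr.ext (Equiv.ext hg) (funext fun v => ?_)
  obtain ⟨a', ha'⟩ := ha.1.2 (‖v‖ + 1)
  obtain ⟨b', hb'⟩ := hb.1.2 (‖v‖ + 1)
  have h0 : ‖(0 : P2)‖ ≤ ‖v‖ + 1 := by
    rw [norm_zero]
    positivity
  rw [(ha' v (by linarith)).2, (hb' v (by linarith)).2]
  refine gm_agree a' b' (‖v‖ + 1) (fun x hx => ?_) ?_ v (by linarith)
  · rw [← (ha' x hx.le).1, ← (hb' x hx.le).1, hg]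
  · rw [← (ha' 0 h0).2, ← (hb' 0 h0).2, h]

theorem Cnf_ex (F : ↥Ft) : ∃ a ∈ Cnf, a.ph 0 = F := by
  obtain ⟨h, hh, hdir⟩ := exists_bh F.1 F.2
  choose b hb0 hbF hbr using fun n : ℕ => gm_spec.real F 0 0 (2 * n)
  have hh0 : h 0 = 0 := by
    have h1 := hdir 0 0 le_rfl
    rwa [zero_smul, zero_smul] at h1
  have hbh : ∀ (n : ℕ) (x : P2), ‖x‖ ≤ n → (b n).1 x = h x := by
    intro n x hx
    by_cases hx0 : x = 0
    · rw [hx0, hb0 n, hh0]
    · obtain ⟨t, θ, ht, _, _, rfl⟩ := exists_dir x hx0 0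
      have h2 : t ≤ 2 * n := by
        rw [norm_smul, Real.norm_of_nonneg ht.le] at hx
        have h3 := mul_le_mul_of_nonneg_left (dir_norm_ge θ) ht.le
        linarith
      have h4 := hbr n θ t ht.le h2
      rw [zero_add, zero_add] at h4
      rw [h4, hdir θ t ht.le]
  have hag : ∀ (m n : ℕ), m ≤ n → ∀ x : P2, ‖x‖ < m → gm (b m) x = gm (b n) x := by
    intro m n hmn x hx
    have hmn' : (m : ℝ) ≤ n := Nat.cast_le.2 hmn
    refine gm_agree (b m) (b n) m (fun y hy => ?_) ?_ x hx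
    · rw [hbh m y hy.le, hbh n y (hy.le.trans hmn')]
    · rw [hbF, hbF]
  have hlt : ∀ x : P2, ‖x‖ < ((⌈‖x‖⌉₊ + 1 : ℕ) : ℝ) := by
    intro x
    have h1 := Nat.le_ceil ‖x‖
    push_cast
    linarith
  refine ⟨⟨h, fun x => gm (b (⌈‖x‖⌉₊ + 1)) x⟩, ⟨⟨hh, fun R => ?_⟩, ?_⟩, hbF _⟩
  · refine ⟨b (⌈R⌉₊ + 1), fun x hx => ⟨?_, ?_⟩⟩
    · refine (hbh _ x ?_).symm
      have h1 := Nat.le_ceil R
      push_cast
      linarith
    · refine hag _ _ ?_ x (hlt x)
      have h1 := Nat.ceil_mono hx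
      omega
  · intro t x ht
    change h (t • x) = t • h x
    by_cases hx0 : x = 0
    · rw [hx0, smul_zero, hh0, smul_zero]
    · obtain ⟨s, θ, hs, _, _, rfl⟩ := exists_dir x hx0 0
      rw [smul_smul, hdir θ _ (mul_nonneg ht.le hs.le), hdir θ s hs.le, smul_smul]

end C715
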