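import Pool.Agent.Work.MP_c71557_gt.C.HfA
import Pool.Agent.Work.MP_c71557_gt.C.Cls
import Pool.Agent.Work.MP_c71557_gt.G.Cen

set_option autoImplicit false
set_option linter.unusedVariables false

/-!
# MP_c71557_gt, module C/HfN: homogeneous elements and sectors (M)

`a ∈ Cnf`, `F = a.ph 0`; `Cnf_vec`: `a.g (t • dir θ) = t • (F.r θ • dir (F.f θ))`, `t ≥ 0`.
* `Cnf_maps`, right to left: if `F.f s + k (2π) ∈ (q.1, q.2)` for `s ∈ (p.1, p.2)`, then
  `a.g (t • dir s) = (t * F.r s) • dir (F.f s + k (2π))` (`dir_per`) is in the sector.  Left to right: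
  for every `s ∈ (p.1, p.2)`, `a.g (dir s) = t • dir θ`, `t > 0`, `q.1 < θ < q.2`, so by
  `smul_dir_inj` `F.f s + k(s) (2π) = θ ∈ (q.1, q.2)` for an integer `k(s)`; as `q.2 - q.1 ≤ π < 2π`
  the integer is unique, and it is locally constant (the condition is open, `F.f` continuous), so
  constant on the interval `(p.1, p.2)` (e.g. the sets `{s | F.f s + k (2π) ∈ (q.1, q.2)}` are open,
  disjoint and cover the preconnected `Ioo`; or: if `k(s) ≠ k(s')`, `s < s'`, then `F.f` takes by the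
  intermediate value theorem a value in the gap between two translates of `(q.1, q.2)`).
* `Cnf_N`, left to right: let `s ∈ (p.1, p.2)`.  `a.g (dir s) = dir s` gives `F.r s • dir (F.f s) =
  dir s`.  Take `b ∈ Gc` for `a` and `R = 1` and `loc` for `b` at `0`, `θ = s`: for small `t > 0`
  `(gm b (t • dir s)).ev s = (gm b 0).ev s = F.ev s`, and `gm b (t • dir s) = a.ph (t • dir s) = 1`; so
  `F.ev s = (s, 1)`; `U = Ioo p.1 p.2` is open.
  Right to left: `F.ev s = (s, 1)` on `U ⊇ (p.1, p.2)` gives `a.g x = x` on the sector.  Let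
  `x = t • dir s` in the sector, `R > ‖x‖`, `R ≥ 1`, `b ∈ Gc` for `a` and `R`.  `C` = the set of
  `r • dir s`, `0 < r ≤ t`, is preconnected (image of an interval), contained in the open set
  (sector ∩ ball) where `b = a.g` is the identity (sectors are open: C/Cls `sct_CU`; or argue
  directly with `Ioo p.1 p.2`).  By `conn` `gm b` is constant on `C`.  By `exp` at `v = r • dir s`, `r`
  small: `b` is the identity near `v`, so `vec (gm b v) θ = dir θ` for all `θ`, and by `cen_eq`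
  (G/Cen) with `μ = 1` there is `k` with `(gm b v).ev θ = (θ + k (2π), 1)` for all `θ`; by `loc`
  `(gm b v).ev s = F.ev s = (s, 1)`, so `k = 0` and `gm b v = 1` (`XX.ext_ev`).  So `a.ph x =
  gm b x = 1`.
-/

noncomputable section

namespace C715

open Ang CategoryTheory
open scoped Topology

private theorem vec_eq (F : XX) (t θ : ℝ) : t • vec F θ = (t * F.r θ) • dir (F.f θ) := by
  unfold vec
  rw [smul_smul]

theorem Cnf_maps {a : FGr} (ha : a ∈ Cnf) {p q : ℝ × ℝ} (hp : p.1 < p.2 ∧ p.2 ≤ p.1 + Real.pi)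
    (hq : q.1 < q.2 ∧ q.2 ≤ q.1 + Real.pi) :
    (∀ x ∈ sct p.1 p.2, a.g x ∈ sct q.1 q.2) ↔
      MapsM (Set.Ioo p.1 p.2) (a.ph 0) (Set.Ioo q.1 q.2) := by
  have hpi := Real.pi_pos
  constructor
  · intro h
    have hex : ∀ s ∈ Set.Ioo p.1 p.2, ∃ k : ℤ,
        (a.ph 0).1.f s + k * (2 * Real.pi) ∈ Set.Ioo q.1 q.2 := by
      intro s hs
      have hpos := (a.ph 0).1.pos s
      have h1 := h (1 • dir s) ⟨1, s, one_pos, hs.1, hs.2, by rw [one_smul, one_smul]⟩
      obtain ⟨t, θ, ht, h2, h3, h4⟩ := h1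
      have h5 : (1 : ℕ) • dir s = (1 : ℝ) • dir s := by rw [one_smul, one_smul]
      rw [h5, Cnf_vec ha s 1 zero_le_one, vec_eq, one_mul] at h4
      obtain ⟨_, k, hk⟩ := smul_dir_inj hpos ht h4
      refine ⟨-k, ?_⟩
      have h6 : (a.ph 0).1.f s + ((-k : ℤ) : ℝ) * (2 * Real.pi) = θ := by
        push_cast
        linarith
      rw [h6]
      exact ⟨h2, h3⟩
    have hlt : ∀ s ∈ Set.Ioo p.1 p.2, ∀ s' ∈ Set.Ioo p.1 p.2, s < s' → ∀ k k' : ℤ,
        (a.ph 0).1.f s + k * (2 * Real.pi) ∈ Set.Ioo q.1 q.2 →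
        (a.ph 0).1.f s' + k' * (2 * Real.pi) ∈ Set.Ioo q.1 q.2 → k = k' := by
      intro s hs s' hs' hss k k' hk hk'
      have hm : (a.ph 0).1.f s < (a.ph 0).1.f s' := (a.ph 0).1.f.strictMono hss
      have h1 : k' ≤ k := by
        by_contra hc
        push Not at hc
        have hc' : (k : ℝ) + 1 ≤ k' := by exact_mod_cast hc
        have h3 : ((k : ℝ) + 1) * (2 * Real.pi) ≤ k' * (2 * Real.pi) :=
          mul_le_mul_of_nonneg_right hc' (by linarith)
        nlinarith [hk.1, hk.2, hk'.1, hk'.2, hq.2]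
      by_contra hne
      have h2 : k' < k := lt_of_le_of_ne h1 (fun e => hne e.symm)
      have hc' : (k' : ℝ) + 1 ≤ k := by exact_mod_cast h2
      have h3 : ((k' : ℝ) + 1) * (2 * Real.pi) ≤ k * (2 * Real.pi) :=
        mul_le_mul_of_nonneg_right hc' (by linarith)
      obtain ⟨s2, hs2⟩ := (a.ph 0).1.f.surjective (q.2 - k * (2 * Real.pi))
      have h4 : (a.ph 0).1.f s < (a.ph 0).1.f s2 := by
        rw [hs2]
        linarith [hk.2]
      have h5 : (a.ph 0).1.f s2 < (a.ph 0).1.f s' := by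
        rw [hs2]
        nlinarith [hk'.1, hq.2]
      have h6 : s < s2 := (a.ph 0).1.f.lt_iff_lt.1 h4
      have h7 : s2 < s' := (a.ph 0).1.f.lt_iff_lt.1 h5
      obtain ⟨k2, hk2⟩ := hex s2 ⟨hs.1.trans h6, h7.trans hs'.2⟩
      rw [hs2] at hk2
      have h8 : k2 < k := by
        by_contra hc
        push Not at hc
        have hc2 : (k : ℝ) ≤ k2 := by exact_mod_cast hc
        have h9 : (k : ℝ) * (2 * Real.pi) ≤ k2 * (2 * Real.pi) :=
          mul_le_mul_of_nonneg_right hc2 (by linarith)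
        linarith [hk2.2]
      have hc3 : (k2 : ℝ) + 1 ≤ k := by exact_mod_cast h8
      have h9 : ((k2 : ℝ) + 1) * (2 * Real.pi) ≤ k * (2 * Real.pi) :=
        mul_le_mul_of_nonneg_right hc3 (by linarith)
      nlinarith [hk2.1, hq.2]
    have hs0 : (p.1 + p.2) / 2 ∈ Set.Ioo p.1 p.2 := ⟨by linarith [hp.1], by linarith [hp.1]⟩
    obtain ⟨k, hk⟩ := hex _ hs0
    refine ⟨k, fun s hs => ?_⟩
    obtain ⟨k', hk'⟩ := hex s hs
    have e : k = k' := by
      rcases lt_trichotomy s ((p.1 + p.2) / 2) with h1 | h1 | h1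
      · exact (hlt s hs _ hs0 h1 k' k hk' hk).symm
      · have hk1 := hk
        rw [← h1] at hk1
        have h2 : ((k : ℝ) - k') * (2 * Real.pi) < Real.pi := by
          linarith [hk1.1, hk1.2, hk'.1, hk'.2, hq.2]
        have h3 : ((k' : ℝ) - k) * (2 * Real.pi) < Real.pi := by
          linarith [hk1.1, hk1.2, hk'.1, hk'.2, hq.2]
        have h4 : k ≤ k' := by
          by_contra hc
          push Not at hc
          have hc' : (k' : ℝ) + 1 ≤ k := by exact_mod_cast hc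
          nlinarith
        have h5 : k' ≤ k := by
          by_contra hc
          push Not at hc
          have hc' : (k : ℝ) + 1 ≤ k' := by exact_mod_cast hc
          nlinarith
        exact le_antisymm h4 h5
      · exact hlt _ hs0 s hs h1 k k' hk hk'
    rw [e]
    exact hk'
  · rintro ⟨k, hk⟩ x ⟨t, s, ht, h1, h2, rfl⟩
    have h3 := hk s ⟨h1, h2⟩
    refine ⟨t * (a.ph 0).1.r s, (a.ph 0).1.f s + k * (2 * Real.pi),
      mul_pos ht ((a.ph 0).1.pos s), h3.1, h3.2, ?_⟩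
    rw [Cnf_vec ha s t ht.le, vec_eq, dir_per]

theorem Cnf_N {a : FGr} (ha : a ∈ Cnf) {p : ℝ × ℝ} (hp : p.1 < p.2 ∧ p.2 ≤ p.1 + Real.pi) :
    (∀ x ∈ sct p.1 p.2, a.g x = x ∧ a.ph x = 1) ↔ a.ph 0 ∈ nbS (Set.Ioo p.1 p.2) := by
  constructor
  · intro h
    refine ⟨Set.Ioo p.1 p.2, isOpen_Ioo, le_rfl, fun s hs => ?_⟩
    obtain ⟨b, hb⟩ := ha.1.2 1
    obtain ⟨ε, hε, h1⟩ := gm_spec.loc b 0 s
    have hr : 0 < min ε 1 := lt_min hε one_pos
    have h2 := (h1 _ hr (min_le_left _ _)).1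
    rw [zero_add] at h2
    have h3 : ‖min ε 1 • dir s‖ ≤ 1 := by
      rw [norm_smul, Real.norm_of_nonneg hr.le]
      have h4 := dir_norm_le s
      have h5 := min_le_right ε 1
      nlinarith [norm_nonneg (dir s)]
    have h4 := (h (min ε 1 • dir s) ⟨_, s, hr, hs.1, hs.2, rfl⟩).2
    have h5 := (hb 0 (by rw [norm_zero]; exact zero_le_one)).2
    rw [← (hb _ h3).2, h4, ← h5] at h2
    rw [← h2]
    rfl
  · rintro ⟨U, hU, hpU, hid⟩ x ⟨t, s, ht, h1, h2, rfl⟩
    have hgid : ∀ y ∈ sct p.1 p.2, a.g y = y := by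
      rintro y ⟨r, θ, hr, h3, h4, rfl⟩
      have h5 := hid θ (hpU ⟨h3, h4⟩)
      have h6 : (a.ph 0).1.f θ = θ := congrArg Prod.fst h5
      have h7 : (a.ph 0).1.r θ = 1 := congrArg Prod.snd h5
      rw [Cnf_vec ha θ r hr.le, vec_eq, h6, h7, mul_one]
    refine ⟨hgid _ ⟨t, s, ht, h1, h2, rfl⟩, ?_⟩
    obtain ⟨b, hb⟩ := ha.1.2 (‖t • dir s‖ + 1)
    have hopen : IsOpen (sct p.1 p.2) := (sct_CU hp.1 hp.2).1
    have hbid : ∀ y ∈ sct p.1 p.2, ‖y‖ < ‖t • dir s‖ + 1 → ∀ᶠ z in 𝓝 y, b.1 z = z := by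
      intro y hy hyn
      have h3 : ∀ᶠ z in 𝓝 y, z ∈ sct p.1 p.2 := hopen.mem_nhds hy
      have h4 : ∀ᶠ z in 𝓝 y, ‖z‖ < ‖t • dir s‖ + 1 :=
        continuous_norm.continuousAt.eventually (gt_mem_nhds hyn)
      filter_upwards [h3, h4] with z hz1 hz2
      rw [← (hb z hz2.le).1, hgid z hz1]
    have hnrm : ∀ r : ℝ, 0 < r → r ≤ t → ‖r • dir s‖ < ‖t • dir s‖ + 1 := by
      intro r hr hrt
      rw [norm_smul, norm_smul, Real.norm_of_nonneg hr.le, Real.norm_of_nonneg ht.le]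
      have := mul_le_mul_of_nonneg_right hrt (norm_nonneg (dir s))
      linarith
    have hC : _root_.IsPreconnected ((fun r : ℝ => r • dir s) '' Set.Ioc 0 t) :=
      isPreconnected_Ioc.image _ (Continuous.continuousOn (by fun_prop))
    have hCid : ∀ᶠ z in 𝓝ˢ ((fun r : ℝ => r • dir s) '' Set.Ioc 0 t), b.1 z = z := by
      rw [eventually_nhdsSet_iff_forall]
      rintro y ⟨r, hr, rfl⟩
      exact hbid _ ⟨r, s, hr.1, h1, h2, rfl⟩ (hnrm r hr.1 hr.2)
    obtain ⟨ε, hε, hloc⟩ := gm_spec.loc b 0 s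
    have hr : 0 < min ε t := lt_min hε ht
    have hv := (hloc _ hr (min_le_left _ _)).1
    rw [zero_add, ← (hb 0 (by rw [norm_zero]; positivity)).2, hid s (hpU ⟨h1, h2⟩)] at hv
    have hvid := hbid _ ⟨_, s, hr, h1, h2, rfl⟩ (hnrm _ hr (min_le_right _ _))
    have hvec : ∀ θ, vec (gm b (min ε t • dir s)).1 θ = (1 : ℝ) • dir θ := by
      intro θ
      obtain ⟨ε2, hε2, h5⟩ := gm_spec.exp b (min ε t • dir s)
      have h6 : Filter.Tendsto (fun r : ℝ => min ε t • dir s + r • dir θ) (𝓝 0)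
          (𝓝 (min ε t • dir s)) := by
        have h7 : Continuous (fun r : ℝ => min ε t • dir s + r • dir θ) := by fun_prop
        have h8 := h7.tendsto 0
        rwa [zero_smul, add_zero] at h8
      obtain ⟨d, hd, h9⟩ := Metric.eventually_nhds_iff.1 (h6.eventually hvid)
      have hu : 0 < min ε2 (d / 2) := lt_min hε2 (half_pos hd)
      have h10 : b.1 (min ε t • dir s + min ε2 (d / 2) • dir θ) =
          min ε t • dir s + min ε2 (d / 2) • dir θ := by
        refine h9 ?_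
        rw [Real.dist_eq, sub_zero, abs_of_pos hu]
        have := min_le_right ε2 (d / 2)
        linarith
      have h11 := h5 θ _ hu.le (min_le_left _ _)
      rw [h10, hvid.self_of_nhds] at h11
      rw [one_smul]
      exact (smul_right_injective P2 hu.ne' (add_left_cancel h11)).symm
    obtain ⟨k, hk⟩ := cen_eq one_pos hvec
    have hk0 : (k : ℝ) * (2 * Real.pi) = 0 := by
      have h12 := hk s
      rw [hv] at h12
      have h13 : s = s + k * (2 * Real.pi) := congrArg Prod.fst h12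
      linarith
    have hone : gm b (min ε t • dir s) = 1 := by
      refine Subtype.ext (XX.ext_ev fun θ => ?_)
      rw [hk θ, hk0, add_zero]
      rfl
    have hfin := gm_spec.conn b _ hC hCid (t • dir s) ⟨t, ⟨ht, le_rfl⟩, rfl⟩
      (min ε t • dir s) ⟨_, ⟨hr, min_le_right _ _⟩, rfl⟩
    rw [(hb (t • dir s) (by linarith)).2, hfin, hone]

end C715
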