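import Pool.Agent.Work.MP_c71557_gt.C.PushZ
import Pool.Agent.Work.MP_c71557_gt.C.ArcA
import Pool.Agent.Work.MP_c71557_gt.A.OutA

set_option autoImplicit false
set_option linter.unusedVariables false

/-!
# MP_c71557_gt, module C/KKz: the homology of arcs and the plane (S-M)

`push_zero` (C/PushZ) for `A = Arc`, `Q = ⊤`, `m = 4`, and the angular theorem `out_inj`, `out_surj`
(A/OutA).  Equalities of functors (`CategoryTheory.Functor.ext`, objects `rfl`, arrows by
`ActCat.ind`, see the proof of A/OutA `fun_eq`):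
`AcsBcs = AcsAcg ⋙ AcgBcs`, `AcsArc ⋙ Arc.botPr = AcsAcg ⋙ AcgArc`,
`AcsArc ⋙ Arc.botQ ⊤ hArc = AcsF`.
* `hinj`: `n ≤ 4`, `x ∈ H_n(Arc.bot)`, `x = AcsArc x'` (`hiso_AcsArc`).  `botPr x = 0` gives
  `AcgArc (AcsAcg x') = 0`, so `AcsAcg x' = 0`, so `AcsBcs x' = 0`; `botQ x = 0` gives `AcsF x' = 0`;
  so `x' = 0` by `out_inj`.
* `hsurj`: `1 ≤ n ≤ 5`, given `y ∈ H_n(Arc)`, `z ∈ H_n(Ft)`: `y = AcgArc y'`, and by `out_surj` there
  is `x'` with `AcsBcs x' = AcgBcs y'`, `AcsF x' = z`; then `AcgBcs (AcsAcg x') = AcgBcs y'`, so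
  `AcsAcg x' = y'`, and `x = AcsArc x'` works.
-/

noncomputable section

namespace C715

open CategoryTheory

namespace Ang

open XX ActCat

private theorem e1 : AcsBcs = AcsAcg ⋙ AcgBcs := by
  refine CategoryTheory.Functor.ext (fun _ => rfl) (fun x y u => ?_)
  induction u using ActCat.ind with
  | h g hg =>
    refine Eq.trans ?_ (Category.id_comp _).symm
    exact (Category.comp_id _).symm

private theorem e2 : AcsArc ⋙ Arc.botPr = AcsAcg ⋙ AcgArc := by
  refine CategoryTheory.Functor.ext (fun _ => rfl) (fun x y u => ?_)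
  induction u using ActCat.ind with
  | h g hg =>
    refine Eq.trans ?_ (Category.id_comp _).symm
    exact (Category.comp_id _).symm

private theorem e3 : AcsArc ⋙ Arc.botQ ⊤ hArc = AcsF := by
  refine CategoryTheory.Functor.ext (fun _ => rfl) (fun x y u => ?_)
  induction u using ActCat.ind with
  | h g hg =>
    refine Eq.trans ?_ (Category.id_comp _).symm
    exact (Category.comp_id _).symm

private theorem c1 (n : ℕ) (x : HC Acs.Obj n) :
    HCmap AcsBcs n x = HCmap AcgBcs n (HCmap AcsAcg n x) :=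
  (congrArg (fun F : Acs.Obj ⥤ Bcs.Obj => HCmap F n x) e1).trans (HCmap_comp AcsAcg AcgBcs n x)

private theorem c2 (n : ℕ) (x : HC Acs.Obj n) :
    HCmap Arc.botPr n (HCmap AcsArc n x) = HCmap AcgArc n (HCmap AcsAcg n x) :=
  (HCmap_comp AcsArc Arc.botPr n x).symm.trans
    ((congrArg (fun F : Acs.Obj ⥤ Arc.Obj => HCmap F n x) e2).trans
      (HCmap_comp AcsAcg AcgArc n x))

private theorem c3 (n : ℕ) (x : HC Acs.Obj n) :
    HCmap (Arc.botQ ⊤ hArc) n (HCmap AcsArc n x) = HCmap AcsF n x :=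
  (HCmap_comp AcsArc (Arc.botQ ⊤ hArc) n x).symm.trans
    (congrArg (fun F : Acs.Obj ⥤ (sg (⊤ : Subgroup ↥Ft)).Obj => HCmap F n x) e3)

theorem KK_zero (n : ℕ) (h1 : 1 ≤ n) (h2 : n ≤ 5) : Subsingleton (HC KK.Obj n) := by
  refine push_zero Arc ⊤ hArc 4 ?_ ?_ n h1 h2
  · intro n hn x hx1 hx2
    obtain ⟨x', rfl⟩ := (hiso_AcsArc n).2 x
    rw [c2] at hx1
    have hx2' : HCmap AcsF n x' = 0 := (c3 n x').symm.trans hx2
    have h3 : HCmap AcsAcg n x' = 0 := (hiso_AcgArc n).1 (hx1.trans (map_zero _).symm)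
    have h4 : HCmap AcsBcs n x' = 0 := by rw [c1, h3, map_zero]
    have h5 : x' = 0 := out_inj n hn (Prod.ext
      (h4.trans (map_zero (HCmap AcsBcs n)).symm) (hx2'.trans (map_zero (HCmap AcsF n)).symm))
    rw [h5, map_zero]
  · intro n hn1 hn2 y z
    obtain ⟨y', rfl⟩ := (hiso_AcgArc n).2 y
    obtain ⟨x', hx'⟩ := out_surj n hn1 hn2 (HCmap AcgBcs n y', z)
    have h3 : HCmap AcsBcs n x' = HCmap AcgBcs n y' := congrArg Prod.fst hx'
    have h4 : HCmap AcsF n x' = z := congrArg Prod.snd hx'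
    have h5 : HCmap AcsAcg n x' = y' := (hiso_AcgBcs n).1 ((c1 n x').symm.trans h3)
    refine ⟨HCmap AcsArc n x', ?_, ?_⟩
    · rw [c2, h5]
    · exact (c3 n x').trans h4

end Ang
end C715
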