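import Pool.Agent.Work.MP_c71557_gt.C.RelIso
import Pool.Agent.Work.MP_c71557_gt.C.BotOv
import Pool.Agent.Work.MP_c71557_gt.H.Les
import Pool.Agent.Work.MP_c71557_gt.H.RelPt

set_option autoImplicit false
set_option linter.unusedVariables false

/-!
# MP_c71557_gt, module C/PushZ: the pushout lemma (M)

Notation: `K = A.top Q`, `K' = A.bot.top Q`, `j : A → K`, `j' : A.bot → K'` (`topIncl`),
`botTop : K' → K`, `botPr : A.bot → A`.  The relative map `H_n(K', A.bot) → H_n(K, A)` is bijective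
(`relTop_iso` with `hiso_ovBot`), the square `j' ⋙ botTop = botPr ⋙ j` commutes on simplices
(`topMap_comm`), `botTopQ : K' → Q` is `HIso` and `j' ⋙ botTopQ = botQ`.
Long exact sequences of `Cx.coker_SES (NCmap j)` (`NCmap_inj`, H/RelPt; `exact_left`, `exact_mid`,
`exact_right`, `delta_nat`, H/Les).

Let `x ∈ H_n(K)`, `1 ≤ n ≤ m + 1`.  Its image in `H_n(K, A)` comes from `y ∈ H_n(K', A.bot)`.
`δ y ∈ H_{n-1}(A.bot)` goes to `δ (image of x) = 0` in `H_{n-1}(A)` and to `0` in `H_{n-1}(K')`, hence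
in `H_{n-1}(Q)`; by `hinj`, `δ y = 0`.  So `y` is the image of `z ∈ H_n(K')`, and `x - botTop z` goes
to `0` in `H_n(K, A)`, hence is `j a`, `a ∈ H_n(A)`.  By `hsurj` there is `w ∈ H_n(A.bot)` with
`botPr w = a` and `botQ w = - botTopQ z`, i.e. `j' w = -z` (`botTopQ` is injective on homology).  Then
`j a = j (botPr w) = botTop (j' w) = - botTop z`, so `x = 0`.
-/

noncomputable section

namespace C715

open CategoryTheory

namespace ActCat

variable {Γ : Type} [Group Γ]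

private theorem top_inj (A : ActCat Γ) (Q : Subgroup Γ) (hQ : ∀ {a b g}, A.Adm a g b → g ∈ Q)
    (n : ℕ) : Function.Injective (fun σ : Sx A.Obj n => σ.push (A.topIncl Q hQ)) := by
  intro σ τ h
  obtain ⟨o, m, ms, mc⟩ := σ
  obtain ⟨o', m', ms', mc'⟩ := τ
  have ho : o = o' := by
    funext i
    have h1 := congrFun (congrArg Sx.o h) i
    have h2 : (some (o i).o : Option A.Ob) = some (o' i).o := congrArg Obj.o h1
    exact Obj.ext (Option.some.inj h2)
  subst ho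
  have hm : m = m' := by
    have h1 := (Sx.ext_iff.1 h).2
    have h2 := eq_of_heq h1
    funext i j hij
    have h3 := congrFun (congrFun (congrFun h2 i) j) hij
    obtain ⟨g, hg, e⟩ := hom_surj (m i j hij)
    obtain ⟨g', hg', e'⟩ := hom_surj (m' i j hij)
    change (A.topIncl Q hQ).map (m i j hij) = (A.topIncl Q hQ).map (m' i j hij) at h3
    rw [e, e'] at h3 ⊢
    exact hom_eq.2 (hom_eq.1 h3)
  subst hm
  rfl

private theorem HC_sq {C D D' E : Type} [SmallCategory C] [SmallCategory D] [SmallCategory D']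
    [SmallCategory E] (F : C ⥤ D) (G : D ⥤ E) (F' : C ⥤ D') (G' : D' ⥤ E)
    (h : ∀ n (σ : Sx C n), (σ.push F).push G = (σ.push F').push G') (n : ℕ) (x : HC C n) :
    HCmap G n (HCmap F n x) = HCmap G' n (HCmap F' n x) := by
  obtain ⟨x, hx, rfl⟩ := Cx.H_surj x
  refine Cx.cls_eq.2 ?_
  have key : ((NCmap G).f n).comp ((NCmap F).f n) = ((NCmap G').f n).comp ((NCmap F').f n) := by
    refine Finsupp.lhom_ext fun σ a => ?_
    rw [LinearMap.comp_apply, LinearMap.comp_apply, NCmap_single, NCmap_single, NCmap_single,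
      NCmap_single, h n σ]
  have h1 : (NCmap G).f n ((NCmap F).f n x) = (NCmap G').f n ((NCmap F').f n x) :=
    LinearMap.congr_fun key x
  change (NCmap G).f n ((NCmap F).f n x) - (NCmap G').f n ((NCmap F').f n x) ∈ _
  rw [h1, sub_self]
  exact Submodule.zero_mem _

private theorem HC_tri {C D E : Type} [SmallCategory C] [SmallCategory D]
    [SmallCategory E] (F : C ⥤ D) (G : D ⥤ E) (F' : C ⥤ E)
    (h : ∀ n (σ : Sx C n), (σ.push F).push G = σ.push F') (n : ℕ) (x : HC C n) :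
    HCmap G n (HCmap F n x) = HCmap F' n x := by
  obtain ⟨x, hx, rfl⟩ := Cx.H_surj x
  refine Cx.cls_eq.2 ?_
  have key : ((NCmap G).f n).comp ((NCmap F).f n) = (NCmap F').f n := by
    refine Finsupp.lhom_ext fun σ a => ?_
    rw [LinearMap.comp_apply, NCmap_single, NCmap_single, NCmap_single, h n σ]
  have h1 : (NCmap G).f n ((NCmap F).f n x) = (NCmap F').f n x :=
    LinearMap.congr_fun key x
  change (NCmap G).f n ((NCmap F).f n x) - (NCmap F').f n x ∈ _
  rw [h1, sub_self]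
  exact Submodule.zero_mem _

private theorem incl_botTopQ (A : ActCat Γ) (Q : Subgroup Γ)
    (hQ : ∀ {a b g}, A.Adm a g b → g ∈ Q) (n : ℕ) (σ : Sx A.bot.Obj n) :
    (σ.push (A.bot.topIncl Q (botHQ hQ))).push (A.botTopQ Q hQ) = σ.push (A.botQ Q hQ) := by
  refine Sx.ext rfl (heq_of_eq ?_)
  funext i j h
  obtain ⟨g, hg, e⟩ := hom_surj (σ.m i j h)
  change (A.botTopQ Q hQ).map ((A.bot.topIncl Q (botHQ hQ)).map (σ.m i j h)) =
    (A.botQ Q hQ).map (σ.m i j h)
  rw [e]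
  rfl

private theorem push_zero_aux (A : ActCat Γ) (Q : Subgroup Γ)
    (hQ : ∀ {a b g}, A.Adm a g b → g ∈ Q) (k : ℕ)
    (hinj : ∀ x : HC A.bot.Obj k, HCmap A.botPr k x = 0 → HCmap (A.botQ Q hQ) k x = 0 → x = 0)
    (hsurj : ∀ (y : HC A.Obj (k + 1)) (z : HC (sg Q).Obj (k + 1)),
      ∃ x : HC A.bot.Obj (k + 1), HCmap A.botPr (k + 1) x = y ∧
        HCmap (A.botQ Q hQ) (k + 1) x = z)
    (x : HC (A.top Q hQ).Obj (k + 1)) : x = 0 := by
  have hj := top_inj A Q hQ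
  have hj' := top_inj A.bot Q (botHQ hQ)
  have S := Cx.coker_SES (NCmap (A.topIncl Q hQ)) (NCmap_inj (A.topIncl Q hQ) hj)
  have S' := Cx.coker_SES (NCmap (A.bot.topIncl Q (botHQ hQ)))
    (NCmap_inj (A.bot.topIncl Q (botHQ hQ)) hj')
  have hcomm := topMap_comm (A := A.bot) (A' := A) (botHQ hQ) hQ le_rfl (fun a => a)
    (fun h => h) (fun h => bot_le_N h)
  have hrel := relTop_iso (A := A.bot) (A' := A) (botHQ hQ) hQ (fun a => a) (fun h => h)
    (fun h => bot_le_N h) (hiso_ovBot A Q hQ)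
  -- naturality
  have n1 : ∀ z : HC (A.bot.top Q (botHQ hQ)).Obj (k + 1),
      (Cx.toCoker (NCmap (A.topIncl Q hQ))).H (k + 1) (HCmap (A.botTop Q hQ) (k + 1) z) =
      (relMap (A.bot.topIncl Q (botHQ hQ)) (A.topIncl Q hQ) (A.botTop Q hQ) A.botPr
        hcomm).H (k + 1) ((Cx.toCoker (NCmap (A.bot.topIncl Q (botHQ hQ)))).H (k + 1) z) := by
    intro z
    obtain ⟨z, hz, rfl⟩ := Cx.H_surj z
    rfl
  have n2 : ∀ y : (relC (A.bot.topIncl Q (botHQ hQ))).H (k + 1),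
      HCmap A.botPr k (Cx.delta S' k y) = Cx.delta S k
        ((relMap (A.bot.topIncl Q (botHQ hQ)) (A.topIncl Q hQ) (A.botTop Q hQ) A.botPr
          hcomm).H (k + 1) y) := by
    intro y
    refine Cx.delta_nat S' S (NCmap A.botPr) (NCmap (A.botTop Q hQ)) (relMap
      (A.bot.topIncl Q (botHQ hQ)) (A.topIncl Q hQ) (A.botTop Q hQ) A.botPr hcomm)
      (fun n x => ?_) (fun n x => rfl) k y
    have key : ((NCmap (A.botTop Q hQ)).f n).comp
        ((NCmap (A.bot.topIncl Q (botHQ hQ))).f n) =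
        ((NCmap (A.topIncl Q hQ)).f n).comp ((NCmap A.botPr).f n) := by
      refine Finsupp.lhom_ext fun σ a => ?_
      rw [LinearMap.comp_apply, LinearMap.comp_apply, NCmap_single, NCmap_single, NCmap_single,
        NCmap_single]
      exact congrArg (fun τ => Finsupp.single τ a) (hcomm n σ)
    exact LinearMap.congr_fun key x
  have n3 : ∀ w : HC A.bot.Obj (k + 1), HCmap (A.botTop Q hQ) (k + 1)
      (HCmap (A.bot.topIncl Q (botHQ hQ)) (k + 1) w) =
      HCmap (A.topIncl Q hQ) (k + 1) (HCmap A.botPr (k + 1) w) :=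
    fun w => HC_sq _ _ _ _ hcomm (k + 1) w
  have n4 : ∀ n (w : HC A.bot.Obj n), HCmap (A.botTopQ Q hQ) n
      (HCmap (A.bot.topIncl Q (botHQ hQ)) n w) = HCmap (A.botQ Q hQ) n w :=
    fun n w => HC_tri _ _ _ (incl_botTopQ A Q hQ) n w
  -- the chase
  obtain ⟨y, hy⟩ := (hrel (k + 1)).2 ((Cx.toCoker (NCmap (A.topIncl Q hQ))).H (k + 1) x)
  have hδ : Cx.delta S' k y = 0 := by
    refine hinj _ ?_ ?_
    · rw [n2]
      exact (Cx.exact_right S k _).2 ⟨x, hy.symm⟩
    · rw [← n4]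
      have h1 : HCmap (A.bot.topIncl Q (botHQ hQ)) k (Cx.delta S' k y) = 0 :=
        (Cx.exact_left S' k _).2 ⟨y, rfl⟩
      rw [h1, map_zero]
  obtain ⟨z, rfl⟩ := (Cx.exact_right S' k y).1 hδ
  have h2 : (Cx.toCoker (NCmap (A.topIncl Q hQ))).H (k + 1)
      (x - HCmap (A.botTop Q hQ) (k + 1) z) = 0 := by
    rw [map_sub, n1, sub_eq_zero]
    exact hy.symm
  obtain ⟨a, ha⟩ := (Cx.exact_mid S (k + 1) _).1 h2
  obtain ⟨w, hw1, hw2⟩ := hsurj a (-(HCmap (A.botTopQ Q hQ) (k + 1) z))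
  have h3 : HCmap (A.bot.topIncl Q (botHQ hQ)) (k + 1) w = -z := by
    refine (hiso_botTopQ A Q hQ (k + 1)).1 ?_
    rw [n4, hw2, map_neg]
  have h4 := n3 w
  rw [h3, hw1, map_neg] at h4
  have h5 : -(HCmap (A.botTop Q hQ) (k + 1) z) = x - HCmap (A.botTop Q hQ) (k + 1) z :=
    h4.trans ha
  rw [eq_sub_iff_add_eq, neg_add_cancel] at h5
  exact h5.symm

theorem push_zero (A : ActCat Γ) (Q : Subgroup Γ) (hQ : ∀ {a b g}, A.Adm a g b → g ∈ Q) (m : ℕ)
    (hinj : ∀ n, n ≤ m → ∀ x : HC A.bot.Obj n, HCmap A.botPr n x = 0 →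
      HCmap (A.botQ Q hQ) n x = 0 → x = 0)
    (hsurj : ∀ n, 1 ≤ n → n ≤ m + 1 → ∀ (y : HC A.Obj n) (z : HC (sg Q).Obj n),
      ∃ x : HC A.bot.Obj n, HCmap A.botPr n x = y ∧ HCmap (A.botQ Q hQ) n x = z)
    (n : ℕ) (h1 : 1 ≤ n) (h2 : n ≤ m + 1) : Subsingleton (HC (A.top Q hQ).Obj n) := by
  obtain ⟨k, rfl⟩ := Nat.exists_eq_add_of_le' h1
  have key := push_zero_aux A Q hQ k (fun x => hinj k (by omega) x)
    (fun y z => hsurj (k + 1) (by omega) h2 y z)
  exact ⟨fun x y => (key x).trans (key y).symm⟩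

end ActCat
end C715
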