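import Pool.Agent.Work.MP_c71557_gt.C.DefsK

set_option autoImplicit false
set_option linter.unusedVariables false

/-!
# MP_c71557_gt, module C/Ref: refinement for homogeneous maps (M-L)

`U = univ` suffices (`CellMap.sub`).  Let `g = a.g`, homogeneous, `g ∈ PLH` (`Gf_PLH`), so
`IsPLf (fun x => (g x).1)` and `.2`: continuous, and selecting from finite sets `S₁`, `S₂` of affine
functions.
1. We may take all of them with `c = 0`: for `x : P2` and each `n : ℕ` there is `l ∈ S₁` with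
   `(n+1) (g x).1 = (g ((n+1) • x)).1 = l.ev ((n+1) • x)`; `S₁` is finite, so some `l` occurs for two
   different `n` (pigeonhole), which gives `l.c = 0` and `(g x).1 = l.ev x`.
2. Let `T₁`, `T₂` be the finite sets of the `l ∈ S_i` with `l.c = 0`.  Let `D` be the finite set of all
   functionals `m = α x.1 + β x.2` of the three forms: `l - l'` (`l, l' ∈ T₁`); `l - l'`
   (`l, l' ∈ T₂`); `l.a • t₁ + l.b • t₂` (`l ∈ A'`, `t_i ∈ T_i`).  Let `A` be the finset of the lines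
   `⟨α, β, 0, _⟩` for those with `(α, β) ≠ 0` (e.g. image of a filtered finset, classically).
   On a cell `C = cell univ A x` the sign of every element of `D` is constant (trivially if
   `(α, β) = 0`).
3. A cell is convex (an intersection of open half planes and lines), hence preconnected.  For
   `t, t' ∈ T₁` either `t = t'` on all of `C` or `t ≠ t'` at all points of `C`.  The closed sets
   `{y ∈ C | (g y).1 = t y}`, `t ∈ T₁`, cover `C`, are pairwise equal or disjoint and finite in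
   number, so one of them is `C` (`IsPreconnected`; alternatively: for `y ∈ C` join `x` to `y` by the
   segment and use connectedness of `[0,1]`).  So `(g y).1 = t₁ y` for all `y ∈ C`, `(g y).2 = t₂ y`.
4. This is the second part of `CellMap`; the first: for `l ∈ A'` and `y ∈ C`,
   `l.ev (g y) = l.a * t₁ y + l.b * t₂ y` (`l.c = 0`) is an element of `D` at `y`, its sign is constant
   on `C`.
-/

noncomputable section

namespace C715

open Ang CategoryTheory
open scoped Topology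

private theorem ref_hom {φ : P2 → ℝ} (hφ : ∀ (t : ℝ) (x : P2), 0 < t → φ (t • x) = t * φ x)
    {S : Set L3} (hS : S.Finite) (h : ∀ x, ∃ l ∈ S, φ x = l.ev x) (x : P2) :
    ∃ l ∈ S, l.c = 0 ∧ φ x = l.ev x := by
  choose f hf1 hf2 using fun n : ℕ => h ((n + 1 : ℝ) • x)
  have h1 : ∀ n ∈ (Set.univ : Set ℕ), f n ∈ S := fun n _ => hf1 n
  obtain ⟨m, -, n, -, hmn, he⟩ := Set.infinite_univ.exists_ne_map_eq_of_mapsTo h1 hS
  have hm := hf2 m
  have hn := hf2 n
  rw [hφ _ x (by positivity)] at hm hn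
  rw [he] at hm
  have key : ∀ k : ℕ, (f n).ev (((k : ℝ) + 1) • x) =
      ((k : ℝ) + 1) * ((f n).a * x.1 + (f n).b * x.2) + (f n).c := by
    intro k
    simp only [L3.ev, Prod.smul_fst, Prod.smul_snd, smul_eq_mul]
    ring
  rw [key] at hm hn
  have hne : (m : ℝ) - n ≠ 0 := sub_ne_zero.2 (by exact_mod_cast hmn)
  have h2 : ((m : ℝ) - n) * (φ x - ((f n).a * x.1 + (f n).b * x.2)) = 0 := by
    linear_combination hm - hn
  have h3 : φ x - ((f n).a * x.1 + (f n).b * x.2) = 0 := (mul_eq_zero.1 h2).resolve_left hne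
  have h4 : (f n).c = 0 := by
    linear_combination ((m : ℝ) + 1) * h3 - hm
  refine ⟨f n, hf1 n, h4, ?_⟩
  unfold L3.ev
  linear_combination h3 - h4

private theorem ref_conn {φ : P2 → ℝ} (hφ : Continuous φ) {T : Set L3} (hT : T.Finite)
    {C : Set P2} (hC : _root_.IsPreconnected C) (h : ∀ y ∈ C, ∃ l ∈ T, φ y = l.ev y)
    (hd : ∀ l ∈ T, ∀ l' ∈ T, ∀ y ∈ C, ∀ z ∈ C, l.ev y = l'.ev y → l.ev z = l'.ev z)
    {l : L3} (hl : l ∈ T) {x : P2} (hx : x ∈ C) (hxl : φ x = l.ev x) :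
    ∀ y ∈ C, φ y = l.ev y := by
  have hev : ∀ m : L3, Continuous m.ev := by
    intro m
    unfold L3.ev
    fun_prop
  let P : Set P2 := {y | φ y = l.ev y}
  let T' : Set L3 := {m | m ∈ T ∧ m.ev x ≠ l.ev x}
  let Q : Set P2 := ⋃ m ∈ T', {y | φ y = m.ev y}
  have hP : IsClosed P := isClosed_eq hφ (hev l)
  have hT' : T'.Finite := hT.subset fun m hm => hm.1
  have hQ : IsClosed Q := hT'.isClosed_biUnion fun m _ => isClosed_eq hφ (hev m)
  have hcov : C ⊆ P ∪ Q := by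
    intro y hy
    obtain ⟨m, hm, hym⟩ := h y hy
    by_cases he : m.ev x = l.ev x
    · left
      change φ y = l.ev y
      rw [hym]
      exact hd m hm l hl x hx y hy he
    · right
      exact Set.mem_biUnion (show m ∈ T' from ⟨hm, he⟩) hym
  by_contra hcon
  push Not at hcon
  obtain ⟨y, hy, hyl⟩ := hcon
  have hyQ : y ∈ Q := (hcov hy).resolve_left hyl
  obtain ⟨z, hzC, hzP, hzQ⟩ := isPreconnected_closed_iff.1 hC P Q hP hQ hcov ⟨x, hx, hxl⟩
    ⟨y, hy, hyQ⟩
  obtain ⟨m, hm, hzm⟩ := Set.mem_iUnion₂.1 hzQ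
  have h1 : m.ev z = l.ev z := by
    have e1 : φ z = m.ev z := hzm
    have e2 : φ z = l.ev z := hzP
    rw [← e1, e2]
  exact hm.2 (hd m hm.1 l hl z hzC x hx h1)

private theorem ref_cell_convex (A : Finset Ln) (x : P2) : Convex ℝ (cell Set.univ A x) := by
  intro y hy z hz a b ha hb hab
  refine ⟨trivial, fun l hl => ?_⟩
  have h1 := hy.2 l hl
  have h2 := hz.2 l hl
  have e : l.ev (a • y + b • z) = a * l.ev y + b * l.ev z := by
    simp only [Ln.ev, Prod.fst_add, Prod.snd_add, Prod.smul_fst, Prod.smul_snd, smul_eq_mul]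
    linear_combination (-l.c) * hab
  rw [e]
  rcases lt_trichotomy (l.ev x) 0 with h | h | h
  · rw [sign_neg h] at h1 h2 ⊢
    have h3 := sign_eq_neg_one_iff.1 h1.symm
    have h4 := sign_eq_neg_one_iff.1 h2.symm
    symm
    rw [sign_eq_neg_one_iff]
    rcases ha.eq_or_lt with h5 | h5
    · have hb1 : b = 1 := by linarith
      rw [← h5, hb1]
      linarith
    · have h6 : a * l.ev y < 0 := mul_neg_of_pos_of_neg h5 h3
      have h7 : b * l.ev z ≤ 0 := mul_nonpos_of_nonneg_of_nonpos hb h4.le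
      linarith
  · rw [h, sign_zero] at h1 h2 ⊢
    rw [sign_eq_zero_iff.1 h1.symm, sign_eq_zero_iff.1 h2.symm, mul_zero, mul_zero, add_zero,
      sign_zero]
  · rw [sign_pos h] at h1 h2 ⊢
    have h3 := sign_eq_one_iff.1 h1.symm
    have h4 := sign_eq_one_iff.1 h2.symm
    symm
    rw [sign_eq_one_iff]
    rcases ha.eq_or_lt with h5 | h5
    · have hb1 : b = 1 := by linarith
      rw [← h5, hb1]
      linarith
    · have h6 : 0 < a * l.ev y := mul_pos h5 h3
      have h7 : 0 ≤ b * l.ev z := mul_nonneg hb h4.le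
      linarith

theorem exists_ref {a : FGr} (ha : a ∈ Cnf) (U : Set P2) (A' : Finset Ln)
    (hA' : ∀ l ∈ A', l.c = 0) :
    ∃ A : Finset Ln, (∀ l ∈ A, l.c = 0) ∧ CellMap U A a.g A' := by
  classical
  obtain ⟨⟨⟨hc1, S1, hS1, h1⟩, ⟨hc2, S2, hS2, h2⟩⟩, -⟩ := Gf_PLH ha.1
  have hh1 : ∀ (t : ℝ) (x : P2), 0 < t → (a.g (t • x)).1 = t * (a.g x).1 := by
    intro t x ht
    rw [ha.2 t x ht]
    rfl
  have hh2 : ∀ (t : ℝ) (x : P2), 0 < t → (a.g (t • x)).2 = t * (a.g x).2 := by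
    intro t x ht
    rw [ha.2 t x ht]
    rfl
  let T1 : Set L3 := {l | l ∈ S1 ∧ l.c = 0}
  let T2 : Set L3 := {l | l ∈ S2 ∧ l.c = 0}
  have hT1 : T1.Finite := hS1.subset fun l hl => hl.1
  have hT2 : T2.Finite := hS2.subset fun l hl => hl.1
  have k1 : ∀ x, ∃ l ∈ T1, (a.g x).1 = l.ev x := by
    intro x
    obtain ⟨l, hl, hlc, e⟩ := ref_hom (φ := fun x => (a.g x).1) hh1 hS1 h1 x
    exact ⟨l, ⟨hl, hlc⟩, e⟩
  have k2 : ∀ x, ∃ l ∈ T2, (a.g x).2 = l.ev x := by
    intro x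
    obtain ⟨l, hl, hlc, e⟩ := ref_hom (φ := fun x => (a.g x).2) hh2 hS2 h2 x
    exact ⟨l, ⟨hl, hlc⟩, e⟩
  let D : Set (ℝ × ℝ) :=
    ((fun p : L3 × L3 => (p.1.a - p.2.a, p.1.b - p.2.b)) '' (T1 ×ˢ T1)) ∪
    ((fun p : L3 × L3 => (p.1.a - p.2.a, p.1.b - p.2.b)) '' (T2 ×ˢ T2)) ∪
    ((fun p : Ln × L3 × L3 => (p.1.a * p.2.1.a + p.1.b * p.2.2.a,
      p.1.a * p.2.1.b + p.1.b * p.2.2.b)) '' ((A' : Set Ln) ×ˢ T1 ×ˢ T2))
  have hD : D.Finite := (((hT1.prod hT1).image _).union ((hT2.prod hT2).image _)).union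
    ((A'.finite_toSet.prod (hT1.prod hT2)).image _)
  let f : Ln → (ℝ × ℝ) × ℝ := fun l => ((l.a, l.b), l.c)
  have hf : Function.Injective f := by
    intro l l' h
    have e1 : l.a = l'.a := congrArg (fun p => p.1.1) h
    have e2 : l.b = l'.b := congrArg (fun p => p.1.2) h
    have e3 : l.c = l'.c := congrArg (fun p => p.2) h
    exact Ln.ext e1 e2 e3
  have hAf : (f ⁻¹' (D ×ˢ {0})).Finite :=
    (hD.prod (Set.finite_singleton 0)).preimage hf.injOn
  let A : Finset Ln := hAf.toFinset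
  have hA : ∀ l : Ln, l ∈ A ↔ (l.a, l.b) ∈ D ∧ l.c = 0 := by
    intro l
    rw [Set.Finite.mem_toFinset]
    exact Iff.rfl
  have hsgn : ∀ p ∈ D, ∀ x y : P2, Same A x y →
      SignType.sign (p.1 * x.1 + p.2 * x.2) = SignType.sign (p.1 * y.1 + p.2 * y.2) := by
    intro p hp x y hxy
    by_cases hne : p.1 ≠ 0 ∨ p.2 ≠ 0
    · have := hxy ⟨p.1, p.2, 0, hne⟩ ((hA _).2 ⟨hp, rfl⟩)
      simpa only [Ln.ev, add_zero] using this
    · push Not at hne
      rw [hne.1, hne.2]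
      simp
  have hdiff1 : ∀ l ∈ T1, ∀ l' ∈ T1, ∀ y z : P2, Same A y z → l.ev y = l'.ev y →
      l.ev z = l'.ev z := by
    intro l hl l' hl' y z hyz he
    have hp : (l.a - l'.a, l.b - l'.b) ∈ D := Or.inl (Or.inl ⟨(l, l'), ⟨hl, hl'⟩, rfl⟩)
    have h3 := hsgn _ hp y z hyz
    have e1 : (l.a - l'.a) * y.1 + (l.b - l'.b) * y.2 = 0 := by
      unfold L3.ev at he
      linear_combination he - hl.2 + hl'.2
    rw [e1, sign_zero] at h3
    have h4 := sign_eq_zero_iff.1 h3.symm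
    unfold L3.ev
    linear_combination h4 + hl.2 - hl'.2
  have hdiff2 : ∀ l ∈ T2, ∀ l' ∈ T2, ∀ y z : P2, Same A y z → l.ev y = l'.ev y →
      l.ev z = l'.ev z := by
    intro l hl l' hl' y z hyz he
    have hp : (l.a - l'.a, l.b - l'.b) ∈ D := Or.inl (Or.inr ⟨(l, l'), ⟨hl, hl'⟩, rfl⟩)
    have h3 := hsgn _ hp y z hyz
    have e1 : (l.a - l'.a) * y.1 + (l.b - l'.b) * y.2 = 0 := by
      unfold L3.ev at he
      linear_combination he - hl.2 + hl'.2
    rw [e1, sign_zero] at h3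
    have h4 := sign_eq_zero_iff.1 h3.symm
    unfold L3.ev
    linear_combination h4 + hl.2 - hl'.2
  -- the affine pieces
  have main : ∀ x : P2, ∃ t1 ∈ T1, ∃ t2 ∈ T2, ∀ y ∈ cell Set.univ A x,
      a.g y = (t1.ev y, t2.ev y) := by
    intro x
    have hxC : x ∈ cell Set.univ A x := ⟨trivial, Same.refl A x⟩
    obtain ⟨t1, ht1, e1⟩ := k1 x
    obtain ⟨t2, ht2, e2⟩ := k2 x
    have hC : _root_.IsPreconnected (cell Set.univ A x) := (ref_cell_convex A x).isPreconnected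
    have g1 := ref_conn (φ := fun x => (a.g x).1) hc1 hT1 hC (fun y _ => k1 y)
      (fun l hl l' hl' y hy z hz => hdiff1 l hl l' hl' y z (hy.2.symm.trans hz.2)) ht1 hxC e1
    have g2 := ref_conn (φ := fun x => (a.g x).2) hc2 hT2 hC (fun y _ => k2 y)
      (fun l hl l' hl' y hy z hz => hdiff2 l hl l' hl' y z (hy.2.symm.trans hz.2)) ht2 hxC e2
    exact ⟨t1, ht1, t2, ht2, fun y hy => Prod.ext (g1 y hy) (g2 y hy)⟩
  refine ⟨A, fun l hl => ((hA l).1 hl).2, CellMap.sub (U := Set.univ) ⟨?_, ?_⟩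
    (Set.subset_univ U)⟩
  · intro x _ y _ hxy l hl
    obtain ⟨t1, ht1, t2, ht2, hg⟩ := main x
    have ex := hg x ⟨trivial, Same.refl A x⟩
    have ey := hg y ⟨trivial, hxy⟩
    have hp : (l.a * t1.a + l.b * t2.a, l.a * t1.b + l.b * t2.b) ∈ D :=
      Or.inr ⟨(l, t1, t2), ⟨hl, ht1, ht2⟩, rfl⟩
    have h3 := hsgn _ hp x y hxy
    have ev : ∀ z : P2, l.ev (t1.ev z, t2.ev z) =
        (l.a * t1.a + l.b * t2.a) * z.1 + (l.a * t1.b + l.b * t2.b) * z.2 := by
      intro z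
      have hlc := hA' l hl
      have h4 := ht1.2
      have h5 := ht2.2
      simp only [Ln.ev, L3.ev]
      linear_combination l.a * h4 + l.b * h5 + hlc
    rw [ex, ey, ev, ev]
    exact h3
  · intro x _
    obtain ⟨t1, _, t2, _, hg⟩ := main x
    exact ⟨t1, t2, hg⟩

end C715
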