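import Pool.Agent.Work.MP_c71557_gt.C.Defs
import Pool.Agent.Work.MP_c71557_gt.H.RelTop
import Pool.Agent.Work.MP_c71557_gt.H.Five

set_option autoImplicit false
set_option linter.unusedVariables false

/-!
# MP_c71557_gt, module C/RelIso: relative complexes of a top object (M-L)

If the categories over the top object are homology equivalent (`ovTopMap` is `HIso`) and the groups
`Q` are the same, then `C_*(A.top Q)/C_*(A) → C_*(A'.top Q)/C_*(A')` is a quasi-isomorphism.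

Proof, in the notation of H/RelG, H/RelGNat (`R = A.topIncl Q hQ`, `FB = topMap …`, `FT = idFun …`,
`h = topMap_comm …`):
* `rho R` and `rho R'` are quasi-isomorphisms (`Inj.rho`, injectivity on simplices as in H/RelTop,
  copy the private `top_inj`), and `relMap.H ∘ rho.H = rho'.H ∘ (gD h).tot.H` (`rho_nat`).
  So it suffices that `(gD h).tot` is a quasi-isomorphism: `tot_qis` (H/TotEx), columnwise.
* `((gD h).col p).H q = ((gD h).E1 q).f p`, and by `e1_nat_chain`, `e1_bij` it suffices that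
  `(hf h q).f p : BarX ((G R).HF q) p → BarX ((G R').HF q) p` is bijective; on generators it is
  `hf_bof`: `bof σ x ↦ bof (σ.push FB) ((gAt h (σ.o 0)).H q x)`.
* at `b = ⟨some a⟩` both coefficient modules `((G R).at' b).H q` are zero (`G_acy`: the category
  over `b` has a terminal object, `R` is fully faithful; copy from H/RelTop), so only simplices `σ`
  with `σ.o 0 = ⟨none⟩` contribute; for these all `σ.o i = ⟨none⟩` and all arrows are classes of
  elements of `Q` modulo `⊥`, on both sides: `σ ↦ σ.push FB` is a bijection between the simplices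
  of `A.top Q` and of `A'.top Q` starting at `⟨none⟩` (both are the simplices of `sg Q`, pushed by
  `atTop`).
* at `b = ⟨none⟩` the map `(gAt h ⟨none⟩).H q` is bijective for all `q`: `gAt` is the map of
  cokernels of `alAt R ⟨none⟩ : C_*(R/none) → C_*(𝟭/none)` and the same for `R'`; the middle map
  `bAt` is a quasi-isomorphism because both complexes have the homology of a point (`acy_over`,
  `ov_acy`, or `Acy.hiso`), the left map is `ovTopMap` (H/RelTop: private `oAt`, `io_oAt`: copy);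
  then `Cx.coker_qis` or `Cx.qis_right` (H/Five) for the exact sequences `Inj.ses`.
-/

noncomputable section

namespace C715

open CategoryTheory

namespace ActCat

variable {Γ : Type} [Group Γ]

/-! ### copies of private lemmas of `H/RelTop` -/

private theorem top_inj (A : ActCat Γ) (Q : Subgroup Γ) (hQ : ∀ {a b g}, A.Adm a g b → g ∈ Q) :
    RelG.Inj (A.topIncl Q hQ) := by
  intro n σ τ h
  obtain ⟨o, m, ms, mc⟩ := σ
  obtain ⟨o', m', ms', mc'⟩ := τ
  have ho : o = o' := by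
    funext i
    have h1 := congrFun (congrArg Sx.o h) i
    have h2 : (some (o i).o : Option A.Ob) = some (o' i).o := congrArg Obj.o h1
    exact Obj.ext (Option.some.inj h2)
  subst ho
  have hm : m = m' := by
    have h1 := (Sx.ext_iff.1 h).2
    have h2 := eq_of_heq h1
    funext i j hij
    have h3 := congrFun (congrFun (congrFun h2 i) j) hij
    obtain ⟨g, hg, e⟩ := hom_surj (m i j hij)
    obtain ⟨g', hg', e'⟩ := hom_surj (m' i j hij)
    change (A.topIncl Q hQ).map (m i j hij) = (A.topIncl Q hQ).map (m' i j hij) at h3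
    rw [e, e'] at h3 ⊢
    exact hom_eq.2 (hom_eq.1 h3)
  subst hm
  rfl

private theorem acy_some (A : ActCat Γ) (Q : Subgroup Γ) (hQ : ∀ {a b g}, A.Adm a g b → g ∈ Q)
    (a : A.Ob) : Acy (CostructuredArrow (A.topIncl Q hQ) (⟨some a⟩ : (A.top Q hQ).Obj)) := by
  refine acy_of_terminal (CostructuredArrow.mk (S := A.topIncl Q hQ) (Y := (⟨a⟩ : A.Obj))
    (𝟙 (⟨some a⟩ : (A.top Q hQ).Obj))) fun d => ?_
  obtain ⟨g, hg, e⟩ := hom_surj d.hom
  have hg' : A.Adm d.left.o g a := hg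
  refine ⟨CostructuredArrow.homMk (A.hom (a := d.left.o) (b := a) g hg') ?_, trivial,
    fun f _ => ?_⟩
  · rw [e]
    exact Category.comp_id _
  · ext
    have h1 := CostructuredArrow.w f
    have h2 : (A.topIncl Q hQ).map f.left = d.hom := (Category.comp_id _).symm.trans h1
    obtain ⟨g', hg'', e'⟩ := hom_surj f.left
    rw [e', e] at h2
    rw [e']
    exact hom_eq.2 (hom_eq.1 h2)

private theorem atTop_inj (A : ActCat Γ) (Q : Subgroup Γ)
    (hQ : ∀ {a b g}, A.Adm a g b → g ∈ Q) (n : ℕ) :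
    Function.Injective (fun σ : Sx (sg Q).Obj n => σ.push (A.atTop Q hQ)) := by
  intro σ τ h
  obtain ⟨o, m, ms, mc⟩ := σ
  obtain ⟨o', m', ms', mc'⟩ := τ
  have ho : o = o' := funext fun i => Obj.ext rfl
  subst ho
  have hm : m = m' := by
    have h1 := (Sx.ext_iff.1 h).2
    have h2 := eq_of_heq h1
    funext i j hij
    have h3 := congrFun (congrFun (congrFun h2 i) j) hij
    obtain ⟨g, hg, e⟩ := hom_surj (m i j hij)
    obtain ⟨g', hg', e'⟩ := hom_surj (m' i j hij)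
    change (A.atTop Q hQ).map (m i j hij) = (A.atTop Q hQ).map (m' i j hij) at h3
    rw [e, e'] at h3 ⊢
    change (A.top Q hQ).hom (a := none) (b := none) g hg =
      (A.top Q hQ).hom (a := none) (b := none) g' hg' at h3
    exact hom_eq.2 (hom_eq.1 h3)
  subst hm
  rfl

private theorem atTop_lift (A : ActCat Γ) (Q : Subgroup Γ)
    (hQ : ∀ {a b g}, A.Adm a g b → g ∈ Q) (n : ℕ) (σ : Sx (A.top Q hQ).Obj n)
    (h0 : σ.o 0 = ⟨none⟩) : ∃ τ : Sx (sg Q).Obj n, τ.push (A.atTop Q hQ) = σ := by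
  obtain ⟨o, m, ms, mc⟩ := σ
  have ho : o = fun _ => ⟨none⟩ := by
    funext i
    obtain ⟨g, hg, -⟩ := hom_surj (m 0 i (Fin.zero_le _))
    have h0' : o 0 = ⟨none⟩ := h0
    rw [h0'] at hg
    generalize o i = c at hg
    obtain ⟨_ | a⟩ := c
    · rfl
    · exact False.elim hg
  subst ho
  refine ⟨⟨fun _ => ⟨()⟩, fun i j hij => m i j hij, fun i => ms i, fun i j k h h' =>
    mc i j k h h'⟩, ?_⟩
  refine Sx.ext rfl (heq_of_eq ?_)
  funext i j hij
  change (A.atTop Q hQ).map (X := (⟨()⟩ : (sg Q).Obj)) (Y := (⟨()⟩ : (sg Q).Obj)) (m i j hij) =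
    m i j hij
  obtain ⟨g, hg, e⟩ := hom_surj (m i j hij)
  rw [e]
  rfl

section natQ

variable {A A' : ActCat Γ} {Q : Subgroup Γ} (hQ : ∀ {a b g}, A.Adm a g b → g ∈ Q)
  (hQ' : ∀ {a b g}, A'.Adm a g b → g ∈ Q) (f : A.Ob → A'.Ob)
  (hAdm : ∀ {a b : A.Ob} {g : Γ}, A.Adm a g b → A'.Adm (f a) g (f b))
  (hN : ∀ {a : A.Ob} {n : Γ}, n ∈ A.N a → n ∈ A'.N (f a))

private theorem sq {x y : A.Obj} (u : x ⟶ y) :
    (topMap hQ hQ' le_rfl f hAdm hN).map ((A.topIncl Q hQ).map u) =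
      (A'.topIncl Q hQ').map ((idFun f hAdm hN).map u) := by
  obtain ⟨g, hg, rfl⟩ := hom_surj u
  rfl

private def oq (q : ℕ) (x : OvS (A.topIncl Q hQ) (⟨none⟩ : (A.top Q hQ).Obj) q) :
    OvS (A'.topIncl Q hQ') (⟨none⟩ : (A'.top Q hQ').Obj) q where
  τ := x.τ.push (idFun f hAdm hN)
  f := (topMap hQ hQ' le_rfl f hAdm hN).map x.f

private noncomputable def oAt :
    Cx.Hom ((overL (A.topIncl Q hQ)).at' (⟨none⟩ : (A.top Q hQ).Obj))
      ((overL (A'.topIncl Q hQ')).at' (⟨none⟩ : (A'.top Q hQ').Obj)) where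
  f q := Finsupp.lmapDomain ℚ ℚ (oq hQ hQ' f hAdm hN q)
  comm q x := by
    change Finsupp.lmapDomain ℚ ℚ (oq hQ hQ' f hAdm hN q)
      ((ovS (A.topIncl Q hQ) (⟨none⟩ : (A.top Q hQ).Obj)).alt q x) =
      (ovS (A'.topIncl Q hQ') (⟨none⟩ : (A'.top Q hQ').Obj)).alt q
        (Finsupp.mapDomain (oq hQ hQ' f hAdm hN (q + 1)) x)
    rw [SMod.alt_apply, SMod.alt_apply, map_sum]
    refine Finset.sum_congr rfl fun i _ => ?_
    rw [map_smul]
    congr 1
    change Finsupp.mapDomain _ (Finsupp.mapDomain _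
      (x : OvS (A.topIncl Q hQ) (⟨none⟩ : (A.top Q hQ).Obj) (q + 1) →₀ ℚ)) =
      Finsupp.mapDomain _ (Finsupp.mapDomain _
        (x : OvS (A.topIncl Q hQ) (⟨none⟩ : (A.top Q hQ).Obj) (q + 1) →₀ ℚ))
    rw [← Finsupp.mapDomain_comp, ← Finsupp.mapDomain_comp]
    congr 1
    refine funext fun y => OvS.ext rfl (heq_of_eq ?_)
    refine ((topMap hQ hQ' le_rfl f hAdm hN).map_comp _ _).trans ?_
    exact congrArg (fun u => u ≫ (topMap hQ hQ' le_rfl f hAdm hN).map y.f)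
      (sq hQ hQ' f hAdm hN _)

private theorem io_oAt (q : ℕ) (y : HC (OvTop A Q hQ) q) :
    RelG.io (A'.topIncl Q hQ') (⟨none⟩ : (A'.top Q hQ').Obj) q
      (HCmap (ovTopMap hQ hQ' le_rfl f hAdm hN) q y) =
      (oAt hQ hQ' f hAdm hN).H q
        (RelG.io (A.topIncl Q hQ) (⟨none⟩ : (A.top Q hQ).Obj) q y) := by
  obtain ⟨x, hx, rfl⟩ := Cx.H_surj y
  refine Cx.cls_eq.2 ?_
  have key : ((ovIso (A'.topIncl Q hQ') (⟨none⟩ : (A'.top Q hQ').Obj)).f q).comp
      ((NCmap (ovTopMap hQ hQ' le_rfl f hAdm hN)).f q) =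
      ((oAt hQ hQ' f hAdm hN).f q).comp
        ((ovIso (A.topIncl Q hQ) (⟨none⟩ : (A.top Q hQ).Obj)).f q) := by
    refine Finsupp.lhom_ext fun σ a => ?_
    change (ovIso (A'.topIncl Q hQ') (⟨none⟩ : (A'.top Q hQ').Obj)).f q
      ((NCmap (ovTopMap hQ hQ' le_rfl f hAdm hN)).f q (Finsupp.single σ a)) =
      Finsupp.mapDomain (oq hQ hQ' f hAdm hN q)
        ((ovIso (A.topIncl Q hQ) (⟨none⟩ : (A.top Q hQ).Obj)).f q (Finsupp.single σ a))
    rw [NCmap_single, ovIso_single, ovIso_single]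
    refine Eq.trans ?_ (Finsupp.mapDomain_single (M := ℚ)
      (f := oq hQ hQ' f hAdm hN q)).symm
    rfl
  have h1 := LinearMap.congr_fun key x
  change (ovIso (A'.topIncl Q hQ') (⟨none⟩ : (A'.top Q hQ').Obj)).f q
      ((NCmap (ovTopMap hQ hQ' le_rfl f hAdm hN)).f q x) -
      (oAt hQ hQ' f hAdm hN).f q
        ((ovIso (A.topIncl Q hQ) (⟨none⟩ : (A.top Q hQ).Obj)).f q x) ∈ _
  rw [show (ovIso (A'.topIncl Q hQ') (⟨none⟩ : (A'.top Q hQ').Obj)).f q
      ((NCmap (ovTopMap hQ hQ' le_rfl f hAdm hN)).f q x) = (oAt hQ hQ' f hAdm hN).f q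
        ((ovIso (A.topIncl Q hQ) (⟨none⟩ : (A.top Q hQ).Obj)).f q x) from h1, sub_self]
  exact Submodule.zero_mem _

private theorem oAt_qis (h1 : HIso (ovTopMap hQ hQ' le_rfl f hAdm hN)) :
    Cx.Qis (oAt hQ hQ' f hAdm hN) := by
  intro q
  have h3 : ((oAt hQ hQ' f hAdm hN).H q) ∘
      (RelG.io (A.topIncl Q hQ) (⟨none⟩ : (A.top Q hQ).Obj) q) =
      (RelG.io (A'.topIncl Q hQ') (⟨none⟩ : (A'.top Q hQ').Obj) q) ∘
        (HCmap (ovTopMap hQ hQ' le_rfl f hAdm hN) q) :=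
    funext fun y => (io_oAt hQ hQ' f hAdm hN q y).symm
  refine (Function.Bijective.of_comp_iff _ (LinearEquiv.bijective
    (RelG.io (A.topIncl Q hQ) (⟨none⟩ : (A.top Q hQ).Obj) q))).1 ?_
  rw [h3]
  exact (LinearEquiv.bijective _).comp (h1 q)

end natQ

/-! ### the middle map -/

section mid

variable {B B' : Type} [SmallCategory B] [SmallCategory B']

private theorem aug_bAt (FB : B ⥤ B') (b : B) (y : OvS (𝟭 B) b 0 →₀ ℚ) :
    Finsupp.linearCombination ℚ (fun _ : OvS (𝟭 B') (FB.obj b) 0 => (1 : ℚ))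
      ((RelG.bAt FB b).f 0 y) =
      Finsupp.linearCombination ℚ (fun _ : OvS (𝟭 B) b 0 => (1 : ℚ)) y := by
  change Finsupp.linearCombination ℚ _ (Finsupp.mapDomain _ _) = _
  rw [Finsupp.linearCombination_mapDomain]
  rfl

private theorem bAt_qis (FB : B ⥤ B') (b : B) : Cx.Qis (RelG.bAt FB b) := by
  intro n
  cases n with
  | succ n =>
    have h1 := RelG.mid_zero b n
    have h2 := RelG.mid_zero (FB.obj b) n
    exact ⟨fun _ _ _ => Subsingleton.elim _ _, fun y => ⟨0, Subsingleton.elim _ _⟩⟩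
  | zero =>
    constructor
    · rw [injective_iff_map_eq_zero]
      intro y hy
      obtain ⟨x, hx, rfl⟩ := Cx.H_surj y
      rw [Cx.H_cls, Cx.cls_eq_zero] at hy
      rw [Cx.cls_eq_zero]
      obtain ⟨z, hz⟩ := hy
      refine (ov_acy (𝟭 B) b (RelG.acy_over b)).1 x ?_
      rw [← aug_bAt FB b x, ← hz]
      exact RelG.aug_alt (𝟭 B') (FB.obj b) z
    · intro y
      obtain ⟨x, hx, rfl⟩ := Cx.H_surj y
      obtain ⟨o⟩ := (ov_acy (𝟭 B) b (RelG.acy_over b)).2.2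
      refine ⟨((overL (𝟭 B)).at' b).cls 0 (Finsupp.single o
        (Finsupp.linearCombination ℚ (fun _ : OvS (𝟭 B') (FB.obj b) 0 => (1 : ℚ)) x) :
          OvS (𝟭 B) b 0 →₀ ℚ) trivial, ?_⟩
      rw [Cx.H_cls, Cx.cls_eq]
      refine (ov_acy (𝟭 B') (FB.obj b) (RelG.acy_over (FB.obj b))).1 _ ?_
      rw [map_sub, aug_bAt FB b, Finsupp.linearCombination_single, smul_eq_mul, mul_one,
        sub_self]

end mid

section main

variable {A A' : ActCat Γ} {Q : Subgroup Γ} (hQ : ∀ {a b g}, A.Adm a g b → g ∈ Q)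
  (hQ' : ∀ {a b g}, A'.Adm a g b → g ∈ Q) (f : A.Ob → A'.Ob)
  (hAdm : ∀ {a b : A.Ob} {g : Γ}, A.Adm a g b → A'.Adm (f a) g (f b))
  (hN : ∀ {a : A.Ob} {n : Γ}, n ∈ A.N a → n ∈ A'.N (f a))

/-- the map of the relative complexes over an object is bijective on homology -/
private theorem gAt_bij (h1 : HIso (ovTopMap hQ hQ' le_rfl f hAdm hN)) (b : (A.top Q hQ).Obj)
    (q : ℕ) : Function.Bijective
      ((RelG.gAt (topMap_comm hQ hQ' le_rfl f hAdm hN) b).H q) := by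
  obtain ⟨_ | a⟩ := b
  · refine Cx.qis_right ((top_inj A Q hQ).ses (⟨none⟩ : (A.top Q hQ).Obj))
      ((top_inj A' Q hQ').ses (⟨none⟩ : (A'.top Q hQ').Obj)) (oAt hQ hQ' f hAdm hN)
      (RelG.bAt (topMap hQ hQ' le_rfl f hAdm hN) (⟨none⟩ : (A.top Q hQ).Obj))
      (RelG.gAt (topMap_comm hQ hQ' le_rfl f hAdm hN) (⟨none⟩ : (A.top Q hQ).Obj))
      (fun n x => ?_) (fun n x => rfl) (oAt_qis hQ hQ' f hAdm hN h1)
      (bAt_qis (topMap hQ hQ' le_rfl f hAdm hN) (⟨none⟩ : (A.top Q hQ).Obj)) q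
    change Finsupp.mapDomain _ (Finsupp.mapDomain _
        (x : OvS (A.topIncl Q hQ) (⟨none⟩ : (A.top Q hQ).Obj) n →₀ ℚ)) =
        Finsupp.mapDomain _ (Finsupp.mapDomain _
          (x : OvS (A.topIncl Q hQ) (⟨none⟩ : (A.top Q hQ).Obj) n →₀ ℚ))
    rw [← Finsupp.mapDomain_comp, ← Finsupp.mapDomain_comp]
    congr 1
    exact funext fun y => OvS.ext (topMap_comm hQ hQ' le_rfl f hAdm hN n y.τ) HEq.rfl
  · have h2 := RelG.G_acy (top_inj A Q hQ) _ (acy_some A Q hQ a) q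
    have h3 : Subsingleton (((RelG.G (A'.topIncl Q hQ')).at'
        ((topMap hQ hQ' le_rfl f hAdm hN).obj ⟨some a⟩)).H q) :=
      RelG.G_acy (top_inj A' Q hQ') _ (acy_some A' Q hQ' (f a)) q
    exact ⟨fun _ _ _ => Subsingleton.elim _ _, fun y => ⟨0, Subsingleton.elim _ _⟩⟩

private theorem push_atTop (n : ℕ) (σ : Sx (sg Q).Obj n) :
    (σ.push (A.atTop Q hQ)).push (topMap hQ hQ' le_rfl f hAdm hN) =
      σ.push (A'.atTop Q hQ') := by
  refine Sx.ext rfl (heq_of_eq ?_)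
  funext i j h
  obtain ⟨g, hg, e⟩ := hom_surj (σ.m i j h)
  change (topMap hQ hQ' le_rfl f hAdm hN).map ((A.atTop Q hQ).map (σ.m i j h)) =
    (A'.atTop Q hQ').map (σ.m i j h)
  rw [e]
  rfl

private theorem none_of {b : (A.top Q hQ).Obj}
    (h : (topMap hQ hQ' le_rfl f hAdm hN).obj b = ⟨none⟩) : b = ⟨none⟩ := by
  obtain ⟨_ | a⟩ := b
  · rfl
  · have h2 : (some (f a) : Option A'.Ob) = none := congrArg Obj.o h
    exact absurd h2 (by simp)

private theorem obj_cases (b : (A.top Q hQ).Obj) : b = ⟨none⟩ ∨ ∃ a, b = ⟨some a⟩ := by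
  obtain ⟨_ | a⟩ := b
  · exact Or.inl rfl
  · exact Or.inr ⟨a, rfl⟩

private theorem push_inj (n : ℕ) (σ τ : Sx (A.top Q hQ).Obj n) (h0 : σ.o 0 = ⟨none⟩)
    (h : τ.push (topMap hQ hQ' le_rfl f hAdm hN) =
      σ.push (topMap hQ hQ' le_rfl f hAdm hN)) : τ = σ := by
  have h1 : (topMap hQ hQ' le_rfl f hAdm hN).obj (τ.o 0) =
      (topMap hQ hQ' le_rfl f hAdm hN).obj (σ.o 0) := congrFun (congrArg Sx.o h) 0
  have h2 : τ.o 0 = ⟨none⟩ := by
    refine none_of hQ hQ' f hAdm hN ?_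
    rw [h1, h0]
    rfl
  obtain ⟨σ, rfl⟩ := atTop_lift A Q hQ n σ h0
  obtain ⟨τ, rfl⟩ := atTop_lift A Q hQ n τ h2
  rw [push_atTop, push_atTop] at h
  rw [atTop_inj A' Q hQ' n h]

private theorem hf_bij (h1 : HIso (ovTopMap hQ hQ' le_rfl f hAdm hN)) (q p : ℕ) :
    Function.Bijective ((RelG.hf (topMap_comm hQ hQ' le_rfl f hAdm hN) q).f p) := by
  classical
  have hb := gAt_bij hQ hQ' f hAdm hN h1
  constructor
  · rw [injective_iff_map_eq_zero]
    intro x hx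
    have key : ∀ (σ : Sx (A.top Q hQ).Obj p), σ.o 0 = ⟨none⟩ →
        ∀ x : BarX ((RelG.G (A.topIncl Q hQ)).HF q) p,
        OvIso.cmp ((RelG.G (A'.topIncl Q hQ')).HF q)
          (σ.push (topMap hQ hQ' le_rfl f hAdm hN))
          ((RelG.hf (topMap_comm hQ hQ' le_rfl f hAdm hN) q).f p x) =
        (RelG.gAt (topMap_comm hQ hQ' le_rfl f hAdm hN) (σ.o 0)).H q
          (OvIso.cmp ((RelG.G (A.topIncl Q hQ)).HF q) σ x) := by
      intro σ hσ x
      induction x using bar_ind with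
      | h0 => simp only [map_zero]
      | h1 τ y =>
        rw [RelG.hf_bof]
        by_cases h : τ = σ
        · subst h
          rw [OvIso.cmp_self, OvIso.cmp_self]
        · rw [OvIso.cmp_ne _ h, map_zero]
          exact OvIso.cmp_ne ((RelG.G (A'.topIncl Q hQ')).HF q)
            (fun e => h (push_inj hQ hQ' f hAdm hN p σ τ hσ e)) _
      | h2 x y hx hy => simp only [map_add, hx, hy]
    have h2 : ∀ σ : Sx (A.top Q hQ).Obj p,
        OvIso.cmp ((RelG.G (A.topIncl Q hQ)).HF q) σ x = 0 := by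
      intro σ
      rcases obj_cases hQ (σ.o 0) with hσ | ⟨a, hσ⟩
      · have h3 := key σ hσ x
        rw [hx, map_zero] at h3
        exact (injective_iff_map_eq_zero _).1 (hb (σ.o 0) q).1 _ h3.symm
      · have h3 : Subsingleton (((RelG.G (A.topIncl Q hQ)).at' (σ.o 0)).H q) := by
          rw [hσ]
          exact RelG.G_acy (top_inj A Q hQ) _ (acy_some A Q hQ a) q
        exact h3.elim _ _
    obtain ⟨s, hs⟩ := OvIso.sum_cmp ((RelG.G (A.topIncl Q hQ)).HF q) x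
    rw [← hs]
    refine Finset.sum_eq_zero fun σ _ => ?_
    rw [h2, map_zero]
  · intro y
    induction y using bar_ind with
    | h0 => exact ⟨0, map_zero _⟩
    | h1 σ y =>
      rcases obj_cases hQ' (σ.o 0) with hσ | ⟨a, hσ⟩
      · obtain ⟨τ, hτ⟩ := atTop_lift A' Q hQ' p σ hσ
        rw [← push_atTop hQ hQ' f hAdm hN] at hτ
        subst hτ
        obtain ⟨x, rfl⟩ := (hb ((τ.push (A.atTop Q hQ)).o 0) q).2 y
        exact ⟨bof _ (τ.push (A.atTop Q hQ)) x, RelG.hf_bof _ _ _ _ _⟩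
      · have h3 : Subsingleton (((RelG.G (A'.topIncl Q hQ')).at' (σ.o 0)).H q) := by
          rw [hσ]
          exact RelG.G_acy (top_inj A' Q hQ') _ (acy_some A' Q hQ' a) q
        have h4 : y = 0 := h3.elim _ _
        exact ⟨0, by rw [h4, map_zero, map_zero]⟩
    | h2 x y hx hy =>
      obtain ⟨x', rfl⟩ := hx
      obtain ⟨y', rfl⟩ := hy
      exact ⟨x' + y', map_add _ _ _⟩

private theorem gD_qis (h1 : HIso (ovTopMap hQ hQ' le_rfl f hAdm hN)) :
    Cx.Qis (RelG.gD (topMap_comm hQ hQ' le_rfl f hAdm hN)).tot := by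
  refine DCx.tot_qis _ fun p q => ?_
  change Function.Bijective (((RelG.gD (topMap_comm hQ hQ' le_rfl f hAdm hN)).E1 q).f p)
  have h2 : ((RelG.e1 (RelG.G (A'.topIncl Q hQ')) q).f p) ∘
      (((RelG.gD (topMap_comm hQ hQ' le_rfl f hAdm hN)).E1 q).f p) =
      ((RelG.hf (topMap_comm hQ hQ' le_rfl f hAdm hN) q).f p) ∘
        ((RelG.e1 (RelG.G (A.topIncl Q hQ)) q).f p) :=
    funext fun z => RelG.e1_nat_chain (topMap_comm hQ hQ' le_rfl f hAdm hN) q p z
  refine (Function.Bijective.of_comp_iff' (RelG.e1_bij (RelG.G (A'.topIncl Q hQ')) q p) _).1 ?_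
  rw [h2]
  exact (hf_bij hQ hQ' f hAdm hN h1 q p).comp (RelG.e1_bij (RelG.G (A.topIncl Q hQ)) q p)

end main

theorem relTop_iso {A A' : ActCat Γ} {Q : Subgroup Γ} (hQ : ∀ {a b g}, A.Adm a g b → g ∈ Q)
    (hQ' : ∀ {a b g}, A'.Adm a g b → g ∈ Q) (f : A.Ob → A'.Ob)
    (hAdm : ∀ {a b : A.Ob} {g : Γ}, A.Adm a g b → A'.Adm (f a) g (f b))
    (hN : ∀ {a : A.Ob} {n : Γ}, n ∈ A.N a → n ∈ A'.N (f a))
    (h1 : HIso (ovTopMap hQ hQ' le_rfl f hAdm hN)) :
    Cx.Qis (relMap (A.topIncl Q hQ) (A'.topIncl Q hQ') (topMap hQ hQ' le_rfl f hAdm hN)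
      (idFun f hAdm hN) (topMap_comm hQ hQ' le_rfl f hAdm hN)) := by
  intro n
  have h2 : ((relMap (A.topIncl Q hQ) (A'.topIncl Q hQ') (topMap hQ hQ' le_rfl f hAdm hN)
      (idFun f hAdm hN) (topMap_comm hQ hQ' le_rfl f hAdm hN)).H n) ∘
      ((RelG.rho (A.topIncl Q hQ)).hom.H n) = ((RelG.rho (A'.topIncl Q hQ')).hom.H n) ∘
        ((RelG.gD (topMap_comm hQ hQ' le_rfl f hAdm hN)).tot.H n) :=
    funext fun z => RelG.rho_nat (topMap_comm hQ hQ' le_rfl f hAdm hN) n z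
  refine (Function.Bijective.of_comp_iff _ ((top_inj A Q hQ).rho n)).1 ?_
  rw [h2]
  exact ((top_inj A' Q hQ').rho n).comp (gD_qis hQ hQ' f hAdm hN h1 n)

end ActCat
end C715
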